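import Mathlib
import Pool.Agent.Q83.FC.Base6E
import Pool.Agent.Q83.FC.Strata

set_option autoImplicit false

/-!
# F-nef divisors on `M̄_{0,n}` that are invariant under permutations of the marks

The boundary divisors of `M̄_{0,n}` are the `δ_S = δ_(Sᶜ)`, `S` a set of marks (the marks are the
elements of `Fin n`) with `2 ≤ |S| ≤ n - 2`.  A curve on `M̄_{0,n}` lies in a stratum: it moves in
the components `M̄_{0,k}` of the stratum; a component is given by a map `ν : Fin n → Fin k` onto
its special points: `ν x` is the special point to which the mark `x` is attached.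
-/

namespace Pool.Agent.Results.MP_23e236_ag.SymmetricDivisors

open Finset

/-- `c` is a family of coefficients: it stands for the divisor `∑ c S • δ_S`, the sum over the
unordered partitions `{S, Sᶜ}` of the marks into two sets with at least two marks. -/
def IsDivisor {n : ℕ} (c : Finset (Fin n) → ℝ) : Prop :=
  (∀ S, c Sᶜ = c S) ∧ ∀ S : Finset (Fin n), S.card ≤ 1 → c S = 0

/-- `∑ c S • δ_S` has nonnegative degree on every F-curve: the F-curve of the partition
`A, B, C, E` of the marks has degree `1` on `δ_(A∪B), δ_(A∪C), δ_(A∪E)`, degree `-1` on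
`δ_A, δ_B, δ_C, δ_E` (those of them that exist) and `0` on the other boundary divisors. -/
def FNef {n : ℕ} (c : Finset (Fin n) → ℝ) : Prop :=
  ∀ A B C E : Finset (Fin n), A.Nonempty → B.Nonempty → C.Nonempty → E.Nonempty →
    Disjoint A B → Disjoint A C → Disjoint A E → Disjoint B C → Disjoint B E → Disjoint C E →
    A ∪ B ∪ C ∪ E = univ → c A + c B + c C + c E ≤ c (A ∪ B) + c (A ∪ C) + c (A ∪ E)

/-- `m T` and `ψ i` are the degrees of `δ_T` and `ψ_i` on a curve in `M̄_{0,k}` which is not
contained in the boundary: all `m T ≥ 0`, and `ψ_i = ∑ δ_T`, the sum over the `T` that contain `i`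
and do not contain `j` and `l`, for all marks `j ≠ l` different from `i`. -/
def IsCurve {k : ℕ} (m : Finset (Fin k) → ℕ) (ψ : Fin k → ℕ) : Prop :=
  (∀ T, m Tᶜ = m T) ∧ (∀ T : Finset (Fin k), T.card ≤ 1 → m T = 0) ∧
    ∀ i j l : Fin k, i ≠ j → i ≠ l → j ≠ l →
      ∑ T ∈ univ.filter (fun T : Finset (Fin k) => i ∈ T ∧ j ∉ T ∧ l ∉ T), m T = ψ i

/-- The marks that are attached to the special points in `T`. -/
def marks {n k : ℕ} (ν : Fin n → Fin k) (T : Finset (Fin k)) : Finset (Fin n) :=
  univ.filter fun x => ν x ∈ T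

/-- The degree of `∑ c S • δ_S` on a curve in the component `M̄_{0,k}` given by `ν` of a stratum:
the restriction to the component of the divisor `δ_S`, `S` the set of marks attached to the special
points in `T`, is `δ_T` if `2 ≤ |T| ≤ k - 2`, and `-ψ_i` if `T = {i}` and `i` is a node. -/
noncomputable def degree {n k : ℕ} (c : Finset (Fin n) → ℝ) (ν : Fin n → Fin k)
    (m : Finset (Fin k) → ℕ) (ψ : Fin k → ℕ) : ℝ :=
  (∑ T, c (marks ν T) * m T) / 2 - ∑ i, c (marks ν {i}) * ψ i

/-- `∑ c S • δ_S` has nonnegative degree on all curves in the component of the stratum. -/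
def NefOn {n k : ℕ} (c : Finset (Fin n) → ℝ) (ν : Fin n → Fin k) : Prop :=
  ∀ (m : Finset (Fin k) → ℕ) (ψ : Fin k → ℕ), IsCurve m ψ → 0 ≤ degree c ν m ψ

/-- `∑ c S • δ_S` has nonnegative degree on all curves in all strata. -/
def Nef {n : ℕ} (c : Finset (Fin n) → ℝ) : Prop :=
  ∀ k : ℕ, 4 ≤ k → ∀ ν : Fin n → Fin k, Function.Surjective ν → NefOn c ν

/-- The divisor is invariant under the permutations of the marks that preserve the colours. -/
def Symmetric {n r : ℕ} (col : Fin n → Fin r) (c : Finset (Fin n) → ℝ) : Prop :=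
  ∀ σ : Equiv.Perm (Fin n), (∀ x, col (σ x) = col x) →
    ∀ S : Finset (Fin n), c (S.map σ.toEmbedding) = c S

/-- The numbers of marks of all colours that are attached to the special point `i`. -/
def branch {n k r : ℕ} (col : Fin n → Fin r) (ν : Fin n → Fin k) (i : Fin k) : Fin r → ℕ :=
  fun t => (univ.filter fun x => ν x = i ∧ col x = t).card

/-! ### The proof -/

open Pool.Agent.Q83.FC

theorem marks_union {n k : ℕ} (ν : Fin n → Fin k) (A B : Finset (Fin k)) :
    marks ν (A ∪ B) = marks ν A ∪ marks ν B := by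
  ext x; simp only [marks, mem_filter, mem_univ, true_and, mem_union]

theorem marks_compl {n k : ℕ} (ν : Fin n → Fin k) (A : Finset (Fin k)) :
    marks ν Aᶜ = (marks ν A)ᶜ := by
  ext x; simp only [marks, mem_filter, mem_univ, true_and, mem_compl]

theorem marks_disjoint {n k : ℕ} (ν : Fin n → Fin k) {A B : Finset (Fin k)} (h : Disjoint A B) :
    Disjoint (marks ν A) (marks ν B) := by
  rw [disjoint_left]
  intro x hx hx'
  exact disjoint_left.1 h (mem_filter.1 hx).2 (mem_filter.1 hx').2

theorem marks_nonempty {n k : ℕ} {ν : Fin n → Fin k} (hν : Function.Surjective ν)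
    {A : Finset (Fin k)} (h : A.Nonempty) : (marks ν A).Nonempty := by
  obtain ⟨i, hi⟩ := h
  obtain ⟨x, rfl⟩ := hν i
  exact ⟨x, mem_filter.2 ⟨mem_univ _, hi⟩⟩

theorem card_marks_col {n k r : ℕ} (col : Fin n → Fin r) (ν : Fin n → Fin k)
    (T : Finset (Fin k)) (t : Fin r) :
    ((marks ν T).filter fun x => col x = t).card = ∑ i ∈ T, branch col ν i t := by
  have h1 : ∀ x ∈ (marks ν T).filter (fun x => col x = t), ν x ∈ T :=
    fun x hx => (mem_filter.1 (mem_filter.1 hx).1).2
  rw [card_eq_sum_card_fiberwise (s := (marks ν T).filter fun x => col x = t) (f := ν) (t := T)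
    (fun x hx => h1 x hx)]
  refine sum_congr rfl fun i hi => ?_
  simp only [branch]
  congr 1
  ext x
  simp only [marks, mem_filter, mem_univ, true_and]
  constructor
  · rintro ⟨⟨_, h2⟩, h3⟩; exact ⟨h3, h2⟩
  · rintro ⟨h3, h2⟩; exact ⟨⟨by rw [h3]; exact hi, h2⟩, h3⟩

/-- The general theorem, for a number `K` of classes such that F-nef functions on `K` marks have
weights. -/
theorem nefOn {n r k K : ℕ} (hK : 0 < K)
    (base : ∀ g : Finset (Fin K) → ℝ, g ∅ = 0 → FN univ g → HasW univ g) (hk : 3 ≤ k)
    {c : Finset (Fin n) → ℝ} (hc : IsDivisor c) (hF : FNef c) {col : Fin n → Fin r}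
    (hsym : Symmetric col c) {ν : Fin n → Fin k} (hν : Function.Surjective ν) (i₀ : Fin k)
    (hcard : ((univ.erase i₀).image (branch col ν)).card ≤ K) : NefOn c ν := by
  classical
  set U : Finset (Fin k) := univ.erase i₀ with hU
  have memU : ∀ i, i ∈ U ↔ i ≠ i₀ := fun i => by simp [hU]
  set h : Finset (Fin k) → ℝ := fun T => - c (marks ν T) with hh
  have h0 : h ∅ = 0 := by
    have : marks ν ∅ = ∅ := by ext x; simp [marks]
    simp only [hh, this, hc.2 ∅ (by simp), neg_zero]
  have hFN : FN U h := by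
    intro A B C hA hB hC hAn hBn hCn hAB hAC hBC
    set E : Finset (Fin k) := (A ∪ B ∪ C)ᶜ with hE
    have hEn : E.Nonempty := by
      refine ⟨i₀, ?_⟩
      rw [hE, mem_compl, mem_union, mem_union]
      rintro ((h1 | h1) | h1)
      · exact (memU _).1 (hA h1) rfl
      · exact (memU _).1 (hB h1) rfl
      · exact (memU _).1 (hC h1) rfl
    have dAE : Disjoint A E := by
      rw [disjoint_left]; intro x hx hx'; rw [hE, mem_compl] at hx'
      exact hx' (mem_union_left _ (mem_union_left _ hx))
    have dBE : Disjoint B E := by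
      rw [disjoint_left]; intro x hx hx'; rw [hE, mem_compl] at hx'
      exact hx' (mem_union_left _ (mem_union_right _ hx))
    have dCE : Disjoint C E := by
      rw [disjoint_left]; intro x hx hx'; rw [hE, mem_compl] at hx'
      exact hx' (mem_union_right _ hx)
    have h1 := hF (marks ν A) (marks ν B) (marks ν C) (marks ν E) (marks_nonempty hν hAn)
      (marks_nonempty hν hBn) (marks_nonempty hν hCn) (marks_nonempty hν hEn)
      (marks_disjoint ν hAB) (marks_disjoint ν hAC) (marks_disjoint ν dAE) (marks_disjoint ν hBC)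
      (marks_disjoint ν dBE) (marks_disjoint ν dCE) (by
        rw [← marks_union, ← marks_union, ← marks_union, hE, union_compl]
        ext x; simp [marks])
    rw [← marks_union, ← marks_union, ← marks_union] at h1
    have e1 : c (marks ν E) = c (marks ν (A ∪ B ∪ C)) := by
      rw [hE, marks_compl, hc.1]
    have e2 : c (marks ν (A ∪ E)) = c (marks ν (B ∪ C)) := by
      have : A ∪ E = (B ∪ C)ᶜ := by
        ext x
        have a1 : x ∈ A → x ∉ B := fun q => disjoint_left.1 hAB q
        have a2 : x ∈ A → x ∉ C := fun q => disjoint_left.1 hAC q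
        simp only [hE, mem_union, mem_compl]
        tauto
      rw [this, marks_compl, hc.1]
    rw [e1, e2] at h1
    simp only [hh]
    linarith
  -- the classes
  obtain ⟨f, hf⟩ : ∃ f : Fin k → Fin K, ∀ i ∈ U, ∀ j ∈ U, f i = f j →
      branch col ν i = branch col ν j := by
    refine ⟨fun i => if hi : i ∈ U then
      Fin.castLE hcard ((U.image (branch col ν)).equivFin ⟨branch col ν i, mem_image_of_mem _ hi⟩)
      else ⟨0, hK⟩, fun i hi j hj hij => ?_⟩
    simp only [dif_pos hi, dif_pos hj] at hij
    have h1 := (U.image (branch col ν)).equivFin.injective (Fin.castLE_injective hcard hij)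
    exact Subtype.ext_iff.1 h1
  have hinv : ∀ S S' : Finset (Fin k), S ⊆ U → S' ⊆ U →
      (∀ i, (S.filter (fun x => f x = i)).card = (S'.filter (fun x => f x = i)).card) →
      h S = h S' := by
    intro S S' hS hS' h1
    have h2 : ∀ t, ((marks ν S).filter fun x => col x = t).card =
        ((marks ν S').filter fun x => col x = t).card := by
      intro t
      rw [card_marks_col, card_marks_col]
      set G : Fin K → ℕ := fun j => if hj : ∃ i ∈ U, f i = j then branch col ν hj.choose t else 0
        with hG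
      have h3 : ∀ i ∈ U, branch col ν i t = G (f i) := by
        intro i hi
        have h4 : ∃ i' ∈ U, f i' = f i := ⟨i, hi, rfl⟩
        simp only [hG, dif_pos h4]
        rw [hf i hi _ h4.choose_spec.1 h4.choose_spec.2.symm]
      have h5 : ∀ R : Finset (Fin k), R ⊆ U → ∑ i ∈ R, branch col ν i t =
          ∑ j, (R.filter fun x => f x = j).card * G j := by
        intro R hR
        rw [sum_congr rfl fun i hi => h3 i (hR hi), ← sum_fiberwise R f (fun i => G (f i))]
        refine sum_congr rfl fun j _ => ?_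
        rw [sum_congr rfl (g := fun _ => G j) (fun x hx => by rw [(mem_filter.1 hx).2]),
          sum_const, smul_eq_mul]
      rw [h5 S hS, h5 S' hS']
      exact sum_congr rfl fun j _ => by rw [h1 j]
    obtain ⟨σ, hσ1, hσ2⟩ := exists_perm_col col h2
    simp only [hh]
    rw [← hσ2, hsym σ hσ1]
  have hW := classes h0 hFN f hinv base
  -- the degree
  intro m ψ hm
  obtain ⟨hm1, hm2, hm3⟩ := hm
  have hpow : ∀ F : Finset (Fin k) → ℝ, (∀ T, F Tᶜ = F T) →
      ∑ T, F T = 2 * ∑ T ∈ U.powerset, F T := by
    intro F hFc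
    have e1 : (univ : Finset (Finset (Fin k))).filter (fun T => i₀ ∉ T) = U.powerset := by
      ext T
      simp only [mem_filter, mem_univ, true_and, mem_powerset]
      constructor
      · intro h1 x hx
        exact (memU x).2 (fun h2 => h1 (h2 ▸ hx))
      · intro h1 h2
        exact (memU _).1 (h1 h2) rfl
    rw [← sum_filter_add_sum_filter_not univ (fun T : Finset (Fin k) => i₀ ∉ T) F, e1]
    have e2 : ∑ T ∈ univ.filter (fun T : Finset (Fin k) => ¬ i₀ ∉ T), F T =
        ∑ T ∈ U.powerset, F T := by
      rw [← e1]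
      refine sum_nbij' (fun T => Tᶜ) (fun T => Tᶜ) ?_ ?_ ?_ ?_ ?_
      · intro T hT
        simp only [mem_filter, mem_univ, true_and, not_not] at hT ⊢
        simpa using hT
      · intro T hT
        simp only [mem_filter, mem_univ, true_and, not_not] at hT ⊢
        simpa using hT
      · intro T _; exact compl_compl T
      · intro T _; exact compl_compl T
      · intro T _; exact (hFc T).symm
    rw [e2]; ring
  have hfl : ∀ (p : Finset (Fin k) → Prop) [DecidablePred p],
      (∀ T, p T → T ⊆ U) → ∑ T ∈ U.powerset, (if p T then (m T : ℝ) else 0) =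
        ((∑ T ∈ univ.filter p, m T : ℕ) : ℝ) := by
    intro p _ hp
    rw [← sum_filter, Nat.cast_sum]
    refine sum_congr ?_ fun _ _ => rfl
    ext T
    simp only [mem_filter, mem_powerset, mem_univ, true_and]
    exact ⟨fun h1 => h1.2, fun h1 => ⟨hp T h1, h1⟩⟩
  have hpair : ∀ x ∈ U, ∀ y ∈ U, x ≠ y →
      ∑ S ∈ U.powerset, (if x ∈ S ∧ y ∈ S then (m S : ℝ) else 0) = ψ i₀ := by
    intro x hx y hy hxy
    have e1 : ∑ S ∈ U.powerset, (if x ∈ S ∧ y ∈ S then (m S : ℝ) else 0) =
        ∑ S ∈ U.powerset, (if x ∈ S ∧ y ∈ S ∧ i₀ ∉ S then (m S : ℝ) else 0) := by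
      refine sum_congr rfl fun S hS => ?_
      have h1 : i₀ ∉ S := fun h2 => (memU _).1 (mem_powerset.1 hS h2) rfl
      simp [h1]
    rw [e1, hfl (fun S => x ∈ S ∧ y ∈ S ∧ i₀ ∉ S) (fun T hT z hz => (memU z).2
      (fun h2 => hT.2.2 (h2 ▸ hz)))]
    rw [← hm3 i₀ x y (Ne.symm ((memU x).1 hx)) (Ne.symm ((memU y).1 hy)) hxy]
    congr 1
    refine sum_nbij' (fun T => Tᶜ) (fun T => Tᶜ) ?_ ?_ ?_ ?_ ?_
    · intro T hT
      simp only [mem_filter, mem_univ, true_and, mem_compl, not_not] at hT ⊢
      tauto
    · intro T hT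
      simp only [mem_filter, mem_univ, true_and, mem_compl, not_not] at hT ⊢
      tauto
    · intro T _; exact compl_compl T
    · intro T _; exact compl_compl T
    · intro T _; exact (hm1 T).symm
  have hsing : ∀ x ∈ U, ∑ S ∈ U.powerset, (if x ∈ S then (m S : ℝ) else 0) - ψ i₀ = ψ x := by
    intro x hx
    obtain ⟨y, hy, hyx⟩ : ∃ y ∈ U, y ≠ x := by
      have h1 : 1 < U.card := by
        rw [hU, card_erase_of_mem (mem_univ _), card_univ, Fintype.card_fin]; omega
      obtain ⟨y, hy, hyx⟩ := exists_mem_ne h1 x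
      exact ⟨y, hy, hyx⟩
    rw [← hpair x hx y hy (Ne.symm hyx), ← sum_sub_distrib]
    have e1 : ∀ S ∈ U.powerset, ((if x ∈ S then (m S : ℝ) else 0) -
        (if x ∈ S ∧ y ∈ S then (m S : ℝ) else 0)) =
        (if x ∈ S ∧ i₀ ∉ S ∧ y ∉ S then (m S : ℝ) else 0) := by
      intro S hS
      have h1 : i₀ ∉ S := fun h2 => (memU _).1 (mem_powerset.1 hS h2) rfl
      by_cases h2 : x ∈ S <;> by_cases h3 : y ∈ S <;> simp [h1, h2, h3]
    rw [sum_congr rfl e1, hfl (fun S => x ∈ S ∧ i₀ ∉ S ∧ y ∉ S) (fun T hT z hz => (memU z).2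
      (fun h2 => hT.2.1 (h2 ▸ hz))),
      hm3 x i₀ y ((memU x).1 hx) (Ne.symm hyx) (Ne.symm ((memU y).1 hy))]
  have key := hW.design (fun S => (m S : ℝ)) (fun S => Nat.cast_nonneg _)
    (Nat.cast_nonneg (ψ i₀)) hpair
  have hk1 : ∑ x ∈ U, h {x} * (∑ S ∈ U.powerset, (if x ∈ S then (m S : ℝ) else 0) - ψ i₀) =
      ∑ x ∈ U, h {x} * (ψ x : ℝ) := sum_congr rfl fun x hx => by rw [hsing x hx]
  rw [hk1] at key
  have hUc : c (marks ν U) = c (marks ν {i₀}) := by
    have : U = ({i₀} : Finset (Fin k))ᶜ := by
      ext x; simp [hU]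
    rw [this, marks_compl, hc.1]
  have hdeg : degree c ν m ψ = ∑ T ∈ U.powerset, c (marks ν T) * m T -
      (c (marks ν {i₀}) * ψ i₀ + ∑ x ∈ U, c (marks ν {x}) * ψ x) := by
    unfold degree
    rw [hpow (fun T => c (marks ν T) * m T) (fun T => by rw [marks_compl, hc.1, hm1])]
    have : ∑ i, c (marks ν {i}) * (ψ i : ℝ) =
        c (marks ν {i₀}) * ψ i₀ + ∑ x ∈ U, c (marks ν {x}) * ψ x := by
      rw [hU, ← add_sum_erase univ _ (mem_univ i₀)]
    rw [this]; ring
  rw [hdeg]
  have k1 : ∑ S ∈ U.powerset, (m S : ℝ) * h S = - ∑ T ∈ U.powerset, c (marks ν T) * m T := by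
    rw [← sum_neg_distrib]
    exact sum_congr rfl fun T _ => by simp only [hh]; ring
  have k2 : ∑ x ∈ U, h {x} * (ψ x : ℝ) = - ∑ x ∈ U, c (marks ν {x}) * ψ x := by
    rw [← sum_neg_distrib]
    exact sum_congr rfl fun T _ => by simp only [hh]; ring
  have k3 : h U = - c (marks ν {i₀}) := by simp only [hh, hUc]
  rw [k1, k2, k3] at key
  linarith

/-! ### Numbers of different branches -/

theorem sum_distinct (I : Finset ℕ) : (∀ v ∈ I, 0 < v) → I.card * (I.card + 1) ≤ 2 * ∑ v ∈ I, v := by
  induction I using Finset.induction_on_max with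
  | empty => simp
  | insert a s hs ih =>
    intro hI
    have ha : a ∉ s := fun h => lt_irrefl _ (hs a h)
    have h1 : s.card ≤ a - 1 := by
      have : s ⊆ Icc 1 (a - 1) := by
        intro x hx
        have h2 := hs x hx
        have h3 := hI x (mem_insert_of_mem hx)
        exact mem_Icc.2 ⟨h3, by omega⟩
      have h2 := card_le_card this
      rwa [Nat.card_Icc, Nat.add_sub_cancel] at h2
    have h2 : 0 < a := hI a (mem_insert_self _ _)
    have h3 := ih fun v hv => hI v (mem_insert_of_mem hv)
    rw [card_insert_of_notMem ha, sum_insert ha]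
    nlinarith [Nat.sub_add_cancel h2]

/-- The number of different sizes. -/
theorem image_bound {ι : Type} [DecidableEq ι] (J : Finset ι) (s : ι → ℕ) (hs : ∀ i ∈ J, 0 < s i) :
    (J.image s).card * ((J.image s).card + 1) ≤ 2 * ∑ i ∈ J, s i := by
  refine (sum_distinct (J.image s) ?_).trans ?_
  · intro v hv
    obtain ⟨i, hi, rfl⟩ := mem_image.1 hv
    exact hs i hi
  · refine Nat.mul_le_mul_left 2 ?_
    rw [← sum_fiberwise_of_maps_to (s := J) (t := J.image s) (g := s)
      (fun i hi => mem_image_of_mem s hi)]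
    refine sum_le_sum fun v hv => ?_
    obtain ⟨i, hi, rfl⟩ := mem_image.1 hv
    exact single_le_sum (f := s) (fun _ _ => Nat.zero_le _) (mem_filter.2 ⟨hi, rfl⟩)

/-- If all sizes occur at least twice, the sum is larger. -/
theorem image_bound_two {ι : Type} [DecidableEq ι] (J : Finset ι) (s : ι → ℕ)
    (hs : ∀ i ∈ J, 0 < s i) (h2 : ∀ i ∈ J, ∃ j ∈ J, j ≠ i ∧ s j = s i) :
    (J.image s).card * ((J.image s).card + 1) ≤ ∑ i ∈ J, s i := by
  refine (sum_distinct (J.image s) ?_).trans ?_
  · intro v hv
    obtain ⟨i, hi, rfl⟩ := mem_image.1 hv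
    exact hs i hi
  · rw [← sum_fiberwise_of_maps_to (s := J) (t := J.image s) (g := s)
      (fun i hi => mem_image_of_mem s hi), mul_sum]
    refine sum_le_sum fun v hv => ?_
    obtain ⟨i, hi, rfl⟩ := mem_image.1 hv
    obtain ⟨j, hj, hji, hjs⟩ := h2 i hi
    have h3 : ({j, i} : Finset ι) ⊆ J.filter fun x => s x = s i := by
      intro x hx
      rw [mem_insert, mem_singleton] at hx
      rcases hx with rfl | rfl
      · exact mem_filter.2 ⟨hj, hjs⟩
      · exact mem_filter.2 ⟨hi, rfl⟩
    calc 2 * s i = s j + s i := by rw [hjs]; ring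
      _ = ∑ x ∈ ({j, i} : Finset ι), s x := (sum_pair hji).symm
      _ ≤ _ := sum_le_sum_of_subset h3

theorem size_pos {n k : ℕ} {ν : Fin n → Fin k} (hν : Function.Surjective ν) (i : Fin k) :
    0 < (univ.filter fun x => ν x = i).card := by
  obtain ⟨x, hx⟩ := hν i
  exact card_pos.2 ⟨x, mem_filter.2 ⟨mem_univ _, hx⟩⟩

/-- The colouring for which the marks `x ≥ g` have their own colours. -/
def colour (g r : ℕ) (x : Fin (g + r)) : Fin (r + 1) :=
  if h : x.val < g then 0 else ⟨x.val - g + 1, by have := x.isLt; omega⟩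

theorem nef_of_fixed {g r : ℕ} {c : Finset (Fin (g + r)) → ℝ} (hc : IsDivisor c) (hF : FNef c)
    (hsym : ∀ σ : Equiv.Perm (Fin (g + r)), (∀ x : Fin (g + r), g ≤ x.val → σ x = x) →
      ∀ S : Finset (Fin (g + r)), c (S.map σ.toEmbedding) = c S)
    (hgr : (r = 0 ∧ g ≤ 35) ∨ (r = 1 ∧ g ≤ 27) ∨ (r = 2 ∧ g ≤ 20) ∨ (r = 3 ∧ g ≤ 14) ∨
      (r = 4 ∧ g ≤ 9) ∨ (r = 5 ∧ g ≤ 5) ∨ (r = 6 ∧ g ≤ 2)) : Nef c := by
  classical
  intro k hk ν hν
  have hcol : ∀ x : Fin (g + r), g ≤ x.val → ∀ y : Fin (g + r), colour g r y = colour g r x →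
      y = x := by
    intro x hx y hy
    have hx' : ¬ x.val < g := by omega
    unfold colour at hy
    rw [dif_neg hx'] at hy
    by_cases hy' : y.val < g
    · rw [dif_pos hy'] at hy
      exact absurd (congrArg Fin.val hy) (by simp)
    · rw [dif_neg hy'] at hy
      have := congrArg Fin.val hy
      simp only at this
      exact Fin.ext (by omega)
  have hS : Symmetric (colour g r) c := by
    intro σ hσ S
    exact hsym σ (fun x hx => hcol x hx (σ x) (hσ x)) S
  set s : Fin k → ℕ := fun i => (univ.filter fun x => ν x = i).card with hs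
  have hs0 : ∀ i, 0 < s i := size_pos hν
  have hsum : ∑ i, s i = g + r := by
    have h1 := card_eq_sum_card_fiberwise (s := (univ : Finset (Fin (g + r)))) (f := ν)
      (t := (univ : Finset (Fin k))) (fun x _ => mem_univ _)
    rw [card_univ, Fintype.card_fin] at h1
    exact h1.symm
  by_cases hr : r = 0
  · subst hr
    have hg : g ≤ 35 := by omega
    have hbr : ∀ J : Finset (Fin k), (J.image (branch (colour g 0) ν)).card ≤ (J.image s).card := by
      intro J
      have h1 : branch (colour g 0) ν = (fun v : ℕ => fun _ : Fin (0 + 1) => v) ∘ s := by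
        funext i t
        have ht : ∀ x : Fin (g + 0), colour g 0 x = t := by
          intro x
          exact Subsingleton.elim (α := Fin 1) _ _
        simp only [branch, ht, and_true, Function.comp, hs]
      rw [h1, ← image_image]
      exact card_image_le
    have b1 := image_bound (univ : Finset (Fin k)) s (fun i _ => hs0 i)
    rw [hsum] at b1
    have hD : ((univ : Finset (Fin k)).image s).card ≤ 7 := by
      by_contra h7
      have : 8 ≤ ((univ : Finset (Fin k)).image s).card := by omega
      nlinarith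
    by_cases h5 : ((univ : Finset (Fin k)).image s).card ≤ 6
    · refine nefOn (by norm_num) base6 (by omega) hc hF hS hν ⟨0, by omega⟩ ?_
      refine (hbr _).trans (le_trans (card_le_card ?_) h5)
      exact image_subset_image (erase_subset _ _)
    · have h6 : ((univ : Finset (Fin k)).image s).card = 7 := by omega
      obtain ⟨i₀, hi₀⟩ : ∃ i₀ : Fin k, ∀ j, j ≠ i₀ → s j ≠ s i₀ := by
        by_contra hcon
        push Not at hcon
        have b2 := image_bound_two (univ : Finset (Fin k)) s (fun i _ => hs0 i) (fun i _ => by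
          obtain ⟨j, hj1, hj2⟩ := hcon i
          exact ⟨j, mem_univ _, hj1, hj2⟩)
        rw [hsum, h6] at b2
        omega
      refine nefOn (by norm_num) base6 (by omega) hc hF hS hν i₀ ?_
      refine (hbr _).trans ?_
      have h7 : ((univ : Finset (Fin k)).erase i₀).image s ⊆ (univ.image s).erase (s i₀) := by
        intro v hv
        obtain ⟨j, hj, rfl⟩ := mem_image.1 hv
        rw [mem_erase]
        exact ⟨hi₀ j (mem_erase.1 hj).1, mem_image_of_mem s (mem_univ j)⟩
      have h8 := card_le_card h7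
      rw [card_erase_of_mem (mem_image_of_mem s (mem_univ i₀)), h6] at h8
      exact h8
  · -- at least one fixed mark
    have hrpos : 0 < r := Nat.pos_of_ne_zero hr
    set x₀ : Fin (g + r) := ⟨g, by omega⟩ with hx₀
    refine nefOn (by norm_num) base6 (by omega) hc hF hS hν (ν x₀) ?_
    set Fx : Finset (Fin (g + r)) := univ.filter fun x => g ≤ x.val ∧ x ≠ x₀ with hFx
    have hFc : Fx.card ≤ r - 1 := by
      have h1 : (Fx.image Fin.val) ⊆ Ioo g (g + r) := by
        intro v hv
        obtain ⟨x, hx, rfl⟩ := mem_image.1 hv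
        obtain ⟨h2, h3⟩ := (mem_filter.1 hx).2
        have h4 : x.val ≠ g := fun h5 => h3 (Fin.ext (by rw [hx₀]; exact h5))
        exact mem_Ioo.2 ⟨by omega, x.isLt⟩
      have h2 := card_le_card h1
      rw [card_image_of_injective _ Fin.val_injective, Nat.card_Ioo] at h2
      omega
    set Ju : Finset (Fin k) := (univ.erase (ν x₀)).filter fun i =>
      ∀ x : Fin (g + r), ν x = i → x.val < g with hJu
    have hsub : (univ.erase (ν x₀)).image (branch (colour g r) ν) ⊆
        (Fx.image fun x => branch (colour g r) ν (ν x)) ∪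
          ((Ju.image s).image fun v => fun t : Fin (r + 1) => if t = 0 then v else 0) := by
      intro b hb
      obtain ⟨i, hi, rfl⟩ := mem_image.1 hb
      rw [mem_union]
      by_cases hm : ∀ x : Fin (g + r), ν x = i → x.val < g
      · right
        refine mem_image.2 ⟨s i, mem_image_of_mem s (mem_filter.2 ⟨hi, hm⟩), ?_⟩
        funext t
        simp only [branch]
        have hc0 : ∀ x : Fin (g + r), ν x = i → colour g r x = 0 := by
          intro x hx
          unfold colour
          rw [dif_pos (hm x hx)]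
        by_cases ht : t = 0
        · rw [if_pos ht]
          simp only [hs]
          congr 1
          ext x
          simp only [mem_filter, mem_univ, true_and]
          exact ⟨fun h1 => ⟨h1, by rw [hc0 x h1, ht]⟩, fun h1 => h1.1⟩
        · rw [if_neg ht]
          symm
          rw [card_eq_zero, filter_eq_empty_iff]
          rintro x - ⟨h1, h2⟩
          rw [hc0 x h1] at h2
          exact ht h2.symm
      · left
        push Not at hm
        obtain ⟨x, hx1, hx2⟩ := hm
        refine mem_image.2 ⟨x, mem_filter.2 ⟨mem_univ _, hx2, ?_⟩, by rw [hx1]⟩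
        rintro rfl
        exact (mem_erase.1 hi).1 hx1.symm
    have hJs : ∑ i ∈ Ju, s i ≤ g := by
      have h1 : ∑ i ∈ Ju, s i = ((univ : Finset (Fin (g + r))).filter fun x => ν x ∈ Ju).card := by
        rw [card_eq_sum_card_fiberwise (s := univ.filter fun x => ν x ∈ Ju) (f := ν) (t := Ju)
          (fun x hx => by simpa using hx)]
        refine sum_congr rfl fun i hi => ?_
        simp only [hs]
        congr 1
        ext x
        simp only [mem_filter, mem_univ, true_and]
        exact ⟨fun h => ⟨by rw [h]; exact hi, h⟩, fun h => h.2⟩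
      rw [h1]
      have h2 : (((univ : Finset (Fin (g + r))).filter fun x => ν x ∈ Ju).image Fin.val) ⊆
          range g := by
        intro v hv
        obtain ⟨x, hx, rfl⟩ := mem_image.1 hv
        have h3 := (mem_filter.1 (mem_filter.1 hx).2).2
        exact mem_range.2 (h3 x rfl)
      have h3 := card_le_card h2
      rwa [card_image_of_injective _ Fin.val_injective, card_range] at h3
    have hJb := image_bound Ju s (fun i _ => hs0 i)
    have h1 : ((univ.erase (ν x₀)).image (branch (colour g r) ν)).card ≤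
        (r - 1) + (Ju.image s).card := by
      refine (card_le_card hsub).trans ((card_union_le _ _).trans ?_)
      exact Nat.add_le_add (card_image_le.trans hFc) card_image_le
    refine h1.trans ?_
    have h2 : (Ju.image s).card * ((Ju.image s).card + 1) ≤ 2 * g := hJb.trans (by omega)
    generalize (Ju.image s).card = D at h2
    by_contra h3
    have h4 : 8 - r ≤ D := by omega
    have h5 : (8 - r) * (8 - r + 1) ≤ 2 * g :=
      (Nat.mul_le_mul h4 (Nat.add_le_add_right h4 1)).trans h2
    rcases hgr with h | h | h | h | h | h | h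
    · omega
    · obtain ⟨rfl, h⟩ := h; norm_num at h5; omega
    · obtain ⟨rfl, h⟩ := h; norm_num at h5; omega
    · obtain ⟨rfl, h⟩ := h; norm_num at h5; omega
    · obtain ⟨rfl, h⟩ := h; norm_num at h5; omega
    · obtain ⟨rfl, h⟩ := h; norm_num at h5; omega
    · obtain ⟨rfl, h⟩ := h; norm_num at h5; omega

/-- Let `D = ∑ c S • δ_S` be an F-nef divisor on `M̄_{0,n}`.

1. Let `D` be invariant under the permutations of the marks that preserve the colours, for a
colouring of the marks. Then `D` has nonnegative degree on all curves that move in a component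
`M̄_{0,k}` of a stratum with the following property: apart from one special point `i₀`, there are
at most 6 kinds of branches at the special points of the component, where the kind of a branch is
given by the numbers of marks of the different colours on it.

2. Let `n = g + r`, and let `D` be invariant under the permutations of `g` of the marks. If
`r = 0` and `g ≤ 35`, or `r = 1` and `g ≤ 27`, or `r = 2` and `g ≤ 20`, or `r = 3` and `g ≤ 14`, or
`r = 4` and `g ≤ 9`, or `r = 5` and `g ≤ 5`, or `r = 6` and `g ≤ 2`, then `D` is nef. -/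
theorem result :
    (∀ (n r : ℕ) (col : Fin n → Fin r) (c : Finset (Fin n) → ℝ), IsDivisor c → FNef c →
      Symmetric col c → ∀ k : ℕ, 4 ≤ k → ∀ ν : Fin n → Fin k, Function.Surjective ν →
      ∀ i₀ : Fin k, ((univ.erase i₀).image (branch col ν)).card ≤ 6 → NefOn c ν) ∧
    ∀ (g r : ℕ) (c : Finset (Fin (g + r)) → ℝ), IsDivisor c → FNef c →
      (∀ σ : Equiv.Perm (Fin (g + r)), (∀ x : Fin (g + r), g ≤ x.val → σ x = x) →
        ∀ S : Finset (Fin (g + r)), c (S.map σ.toEmbedding) = c S) →
      ((r = 0 ∧ g ≤ 35) ∨ (r = 1 ∧ g ≤ 27) ∨ (r = 2 ∧ g ≤ 20) ∨ (r = 3 ∧ g ≤ 14) ∨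
        (r = 4 ∧ g ≤ 9) ∨ (r = 5 ∧ g ≤ 5) ∨ (r = 6 ∧ g ≤ 2)) → Nef c :=
  ⟨fun _ _ _ _ hc hF hS k hk _ hν i₀ h => nefOn (by norm_num) base6 (by omega) hc hF hS hν i₀ h,
    fun _ _ _ hc hF hsym hgr => nef_of_fixed hc hF hsym hgr⟩

end Pool.Agent.Results.MP_23e236_ag.SymmetricDivisors
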