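import Pool.Agent.Q140.FC.Strong
import Pool.Agent.Q140.FC.FixR

set_option autoImplicit false

/-!
# The strong F-conjecture for divisors on `M̄_{0,n}` which come from spaces with light marks

The marks are `0, …, p-1` (the type `Fin p`) and `∞`, so `n = p + 1`.  The boundary divisors of
`M̄_{0,n}` are the `δ_S`, `S` a set of marks different from `∞` with `2 ≤ |S| < p` (`δ_S`
separates `S` from the other marks).

Let `L` be a set of marks different from `∞`.  The Hassett space `M̄_{0,A}` in which the marks of
`L` are light (with very small weights, so that they may collide with each other) and all other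
marks, `∞` among them, are heavy (of weight one), is a contraction `M̄_{0,n} → M̄_{0,A}`.  The
F-curves which it contracts are those with three parts in `L`; F-nef divisors which are pulled back
from `M̄_{0,A}` are the F-nef divisors of degree `0` on them (`LightOn`).

We prove the strong form of the F-conjecture (an F-nef divisor is linearly equivalent to a
nonnegative combination of boundary divisors, `IsBoundarySum`), and that the divisors are nef, for
two classes of such divisors:

* at most three heavy marks (`∞` included);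
* four heavy marks, and the divisor is symmetric in the light marks; and the same for `k` heavy
  marks if the strong F-conjecture is true for at most `k + 1` marks, so there the light marks may
  be replaced by a single mark.

In general the strong F-conjecture is false (Pixton's example on `M̄_{0,12}`).

For nefness all curves in `M̄_{0,n}` are considered, also those in the boundary. A curve lies
generically in an open stratum, which is a product over the vertices of a tree; its degree is the
sum of the contributions of the vertices. At a vertex there are a branch which contains `∞` and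
other branches, with sets `T 0, …, T (q-1)` of marks: these are nonempty disjoint sets (`IsVertex`),
and the component moves in `M̄_{0,q+1}`. On this factor `∑ c S • δ_S` restricts to
`∑ c (T_S) • δ_S - ∑ c (T i) • ψ_i - c (T_univ) • ψ_∞`, where `T_S` (`br T S`) is the union of the
`T i`, `i ∈ S`. (The curves which meet the interior are the case `q = p`, `T i = {i}`.)
-/

namespace Pool.Agent.Results.MP_23e236_ag.BoundarySums

open Finset Pool.Agent.Q140.FC

variable {p q : ℕ}

/-- `c` is a family of coefficients: it stands for the divisor `∑ c S • δ_S`, the sum over the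
`S` with `2 ≤ |S| < p`; it vanishes on the sets that give no boundary divisor. -/
def IsDivisor (c : Finset (Fin p) → ℝ) : Prop :=
  (∀ S : Finset (Fin p), S.card ≤ 1 → c S = 0) ∧ c univ = 0

/-- `∑ c S • δ_S` has nonnegative degree on every F-curve: the F-curve of the partition
`A, B, C, (the rest, with ∞)` of the marks has degree `1` on `δ_(A∪B), δ_(A∪C), δ_(B∪C)`, degree
`-1` on `δ_A, δ_B, δ_C, δ_(A∪B∪C)` (those of them that exist) and `0` on the others. -/
def FNef (c : Finset (Fin p) → ℝ) : Prop :=
  ∀ A B C : Finset (Fin p), A.Nonempty → B.Nonempty → C.Nonempty →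
    Disjoint A B → Disjoint A C → Disjoint B C →
    c A + c B + c C + c (A ∪ B ∪ C) ≤ c (A ∪ B) + c (A ∪ C) + c (B ∪ C)

/-- The marks of `L` are light: the divisor has degree `0` on the F-curves with three parts in `L`,
which are the F-curves contracted in the Hassett space with light marks `L`. -/
def LightOn (L : Finset (Fin p)) (c : Finset (Fin p) → ℝ) : Prop :=
  ∀ A B C : Finset (Fin p), A.Nonempty → B.Nonempty → C.Nonempty →
    Disjoint A B → Disjoint A C → Disjoint B C → A ⊆ L → B ⊆ L → C ⊆ L →
    c A + c B + c C + c (A ∪ B ∪ C) = c (A ∪ B) + c (A ∪ C) + c (B ∪ C)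

/-- The divisor `∑ c S • δ_S` is symmetric in the light marks: the coefficients do not change when
two light marks are exchanged. -/
def Symmetric (L : Finset (Fin p)) (c : Finset (Fin p) → ℝ) : Prop :=
  ∀ x ∈ L, ∀ y ∈ L, ∀ S : Finset (Fin p), c (S.map (Equiv.swap x y).toEmbedding) = c S

/-- `∑ c S • δ_S` is linearly equivalent to a nonnegative combination of boundary divisors. For
`i ≠ j` one has `ψ_∞ = ∑ δ_S`, the sum over the `S` which contain `i` and `j`. So if `e` is
symmetric with zero diagonal and total sum `0`, then the combination of the `δ_S` with the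
coefficients `(1/2) ∑ e i j` (sum over `i, j ∈ S`) is linearly equivalent to `0`, and these are all
linear relations between the boundary divisors. -/
def IsBoundarySum (c : Finset (Fin p) → ℝ) : Prop :=
  ∃ e : Fin p → Fin p → ℝ, (∀ i j, e i j = e j i) ∧ (∀ i, e i i = 0) ∧ ∑ i, ∑ j, e i j = 0 ∧
    ∀ S : Finset (Fin p), 2 ≤ S.card → S ≠ univ → 0 ≤ c S + (1 / 2) * ∑ i ∈ S, ∑ j ∈ S, e i j

/-- The strong F-conjecture for `M̄_{0,N+1}`: every F-nef divisor is linearly equivalent to a
nonnegative combination of boundary divisors. -/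
def StrongF (N : ℕ) : Prop :=
  ∀ c : Finset (Fin N) → ℝ, IsDivisor c → FNef c → IsBoundarySum c

/-- The `T i` are the sets of marks on the branches, besides the branch of `∞`, at a vertex of the
tree of a stratum. -/
def IsVertex (T : Fin q → Finset (Fin p)) : Prop :=
  (∀ i, (T i).Nonempty) ∧ ∀ i j, i ≠ j → Disjoint (T i) (T j)

/-- The marks on the branches in `S`. -/
def br (T : Fin q → Finset (Fin p)) (S : Finset (Fin q)) : Finset (Fin p) := S.biUnion T

/-- Numerical curves: `m S` are the intersection numbers `C · δ_S` of a real nonnegative combination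
`C` of curves in `M̄_{0,q+1}` that are not contained in the boundary, and `d = C · ψ_∞`: all
`m S ≥ 0`, and for all marks `i ≠ j` different from `∞` one has `ψ_∞ = ∑ δ_S`, the sum over the `S`
containing `i` and `j`. -/
def IsCurve (m : Finset (Fin q) → ℝ) (d : ℝ) : Prop :=
  (∀ S, 0 ≤ m S) ∧ 0 ≤ d ∧ (∀ S : Finset (Fin q), S.card ≤ 1 → m S = 0) ∧ m univ = 0 ∧
    ∀ i j : Fin q, i ≠ j →
      ∑ S ∈ univ.filter (fun S : Finset (Fin q) => i ∈ S ∧ j ∈ S), m S = d

/-- The degree `C · ψ_i = ∑ C · δ_S - C · ψ_∞`, the sum over the `S` containing `i`. -/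
def psi (m : Finset (Fin q) → ℝ) (d : ℝ) (i : Fin q) : ℝ :=
  (∑ S ∈ univ.filter (fun S : Finset (Fin q) => i ∈ S), m S) - d

/-- The contribution of the vertex to the degree of `∑ c S • δ_S` on the curve. -/
def degree (c : Finset (Fin p) → ℝ) (T : Fin q → Finset (Fin p)) (m : Finset (Fin q) → ℝ)
    (d : ℝ) : ℝ :=
  ∑ S : Finset (Fin q), m S * c (br T S) - ∑ i, psi m d i * c (T i) - d * c (br T univ)

/-! ### Proofs -/

section

variable {ι : Type} [DecidableEq ι] [Fintype ι]

/-- the heavy branches -/
def hv (L : Finset (Fin p)) (T : ι → Finset (Fin p)) : Finset ι := univ.filter fun i => ¬ T i ⊆ L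

theorem hv_card {L : Finset (Fin p)} {T : ι → Finset (Fin p)}
    (hd : ∀ i j, i ≠ j → Disjoint (T i) (T j)) : (hv L T).card ≤ (Lᶜ).card := by
  classical
  have h : ∀ i ∈ hv L T, ∃ x, x ∈ T i ∧ x ∉ L := by
    intro i hi
    rw [hv, mem_filter] at hi
    exact not_subset.1 hi.2
  rcases (hv L T).eq_empty_or_nonempty with h0 | ⟨i0, h0⟩
  · rw [h0]; exact Nat.zero_le _
  obtain ⟨x0, -, -⟩ := h i0 h0
  have : Nonempty (Fin p) := ⟨x0⟩
  choose! f hf using h
  refine card_le_card_of_injOn f (fun i hi => ?_) ?_
  · rw [coe_compl]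
    exact fun hx => (hf i hi).2 (mem_coe.1 hx)
  · intro i hi j hj hij
    by_contra hne
    have h1 := (hf i (mem_coe.1 hi)).1
    have h2 := (hf j (mem_coe.1 hj)).1
    rw [hij] at h1
    exact disjoint_left.1 (hd i j hne) h1 h2

/-- the numerical inequality for the divisor at a vertex -/
def Core (c : Finset (Fin p) → ℝ) (T : ι → Finset (Fin p)) (m : Finset ι → ℝ) (d : ℝ) : Prop :=
  ∑ S, m S * (- c (S.biUnion T)) ≤
    d * (- c (univ.biUnion T)) + ∑ i, (deg1 m i - d) * (- c (T i))

/-- at most three heavy marks -/
theorem core_three {c : Finset (Fin p) → ℝ} {L : Finset (Fin p)} (hc : IsDivisor c)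
    (hF : FNef c) (hL : LightOn L c) (h2 : (Lᶜ).card ≤ 2) {T : ι → Finset (Fin p)}
    (hT : ∀ i, (T i).Nonempty) (hd : ∀ i j, i ≠ j → Disjoint (T i) (T j)) {m : Finset ι → ℝ}
    {d : ℝ} (hm : ∀ S, 0 ≤ m S) (hd0 : 0 ≤ d) (hp : PairSum m d) : Core c T m d := by
  classical
  set E : Finset ι → ℝ := fun S => - c (S.biUnion T) with hE
  have hne : ∀ Z : Finset ι, Z.Nonempty → (Z.biUnion T).Nonempty := by
    rintro Z ⟨i, hi⟩
    obtain ⟨x, hx⟩ := hT i
    exact ⟨x, mem_biUnion.2 ⟨i, hi, hx⟩⟩
  have hdj : ∀ Z Z' : Finset ι, Disjoint Z Z' → Disjoint (Z.biUnion T) (Z'.biUnion T) := by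
    intro Z Z' h
    rw [disjoint_biUnion_left]
    intro i hi
    rw [disjoint_biUnion_right]
    intro j hj
    exact hd i j (by rintro rfl; exact disjoint_left.1 h hi hj)
  have hE0 : E ∅ = 0 := by
    rw [hE]
    simp only [biUnion_empty]
    rw [hc.1 ∅ (by simp), neg_zero]
  have hEF : FIneq E := by
    intro A B C hA hB hC hAB hAC hBC
    have h := hF _ _ _ (hne A hA) (hne B hB) (hne C hC) (hdj _ _ hAB) (hdj _ _ hAC) (hdj _ _ hBC)
    simp only [hE, union_biUnion]
    linarith
  have hEL : FEqOn (hv L T)ᶜ E := by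
    intro A B C hA hB hC hAB hAC hBC h1 h2 h3
    have hsub : ∀ A : Finset ι, A ⊆ (hv L T)ᶜ → A.biUnion T ⊆ L := by
      intro A hA x hx
      obtain ⟨i, hi, hxi⟩ := mem_biUnion.1 hx
      have h4 := hA hi
      rw [hv, mem_compl, mem_filter] at h4
      push Not at h4
      exact h4 (mem_univ _) hxi
    have h := hL _ _ _ (hne A hA) (hne B hB) (hne C hC) (hdj _ _ hAB) (hdj _ _ hAC) (hdj _ _ hBC)
      (hsub A h1) (hsub B h2) (hsub C h3)
    simp only [hE, union_biUnion]
    linarith
  have hHL : ∀ S, S ⊆ (hv L T)ᶜ → nz E S = 0 := fun S hS =>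
    zero_on (nz_empty hE0) (nz_single E) (fun i j h => nz_pair E h) (nz_FEqOn hEL) _ S rfl hS
  have h1 := numericR (nz_FIneq hEF) (nz_single E) hHL hm hd0 hp (fun S _ => by
    have h3 := (hv_card (L := L) hd).trans h2
    by_cases h4 : hv L T ⊆ S
    · exact Or.inr h4
    · left
      have h5 : S ∩ hv L T ⊂ hv L T :=
        ⟨inter_subset_right, fun h => h4 (h.trans inter_subset_left)⟩
      have := card_lt_card h5
      omega)
  have h2 := Qd_cancel hp (gu E) (ge E) (ge_self E)
  unfold nz at h1
  simp only [mul_sub, sum_sub_distrib] at h1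
  rw [h2] at h1
  have h3 : ∀ i, gu E i = - c (T i) := fun i => by
    simp [gu, hE]
  simp only [h3] at h1
  show ∑ S, m S * E S ≤ d * E univ + _
  linarith

/-- symmetric light marks -/
theorem core_symm {c : Finset (Fin p) → ℝ} {L : Finset (Fin p)} (hc : IsDivisor c)
    (hF : FNef c) (hL : LightOn L c) (hs : Symmetric L c)
    (hN : ∀ (κ : Type) [DecidableEq κ] [Fintype κ], Fintype.card κ ≤ (Lᶜ).card + 1 → NumF κ)
    {T : ι → Finset (Fin p)}
    (hT : ∀ i, (T i).Nonempty) (hd : ∀ i j, i ≠ j → Disjoint (T i) (T j)) {m : Finset ι → ℝ}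
    {d : ℝ} (hm : ∀ S, 0 ≤ m S) (hp : PairSum m d) : Core c T m d := by
  classical
  set E : Finset (Fin p) → ℝ := fun S => - c S with hE
  have hE0 : E ∅ = 0 := by
    rw [hE]
    simp only
    rw [hc.1 ∅ (by simp), neg_zero]
  have hEF : FIneq E := by
    intro A B C hA hB hC hAB hAC hBC
    have h := hF A B C hA hB hC hAB hAC hBC
    simp only [hE]
    linarith
  have hEL : FEqOn L E := by
    intro A B C hA hB hC hAB hAC hBC h1 h2 h3
    have h := hL A B C hA hB hC hAB hAC hBC h1 h2 h3
    simp only [hE]
    linarith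
  have hEI : Inv L E := by
    intro x hx y hy S
    simp only [hE]
    rw [hs x hx y hy S]
  have hHL : ∀ S, S ⊆ L → nz E S = 0 := fun S hS =>
    zero_on (nz_empty hE0) (nz_single E) (fun i j h => nz_pair E h) (nz_FEqOn hEL) _ S rfl hS
  have h1 := merge hT hd (nz_FIneq hEF) hHL (nz_inv hEI) hm hp (fun κ _ _ hκ =>
    hN κ (hκ.trans (by have := hv_card (L := L) hd; unfold hv at this; omega)))
  -- the quadratic part
  set Q : Finset ι → ℝ := fun S => Qd (gu E) (ge E) (S.biUnion T) with hQ
  have hdj : ∀ Z Z' : Finset ι, Disjoint Z Z' → Disjoint (Z.biUnion T) (Z'.biUnion T) := by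
    intro Z Z' h
    rw [disjoint_biUnion_left]
    intro i hi
    rw [disjoint_biUnion_right]
    intro j hj
    exact hd i j (by rintro rfl; exact disjoint_left.1 h hi hj)
  have h2 := quad_cancel (Q := Q) (by simp [hQ, Qd]) (by
    intro A B C _ _ _ hAB hAC hBC _ _ _
    simp only [hQ, union_biUnion]
    exact Qd_eq (gu E) (ge E) (hdj _ _ hAB) (hdj _ _ hAC) (hdj _ _ hBC)) hp
  have h3 : ∀ i, Q {i} = Qd (gu E) (ge E) (T i) := fun i => by
    simp only [hQ, singleton_biUnion]
  simp only [h3] at h2
  have e1 : ∀ S, E S = nz E S + Qd (gu E) (ge E) S := fun S => by unfold nz; ring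
  show ∑ S, m S * E (S.biUnion T) ≤ d * E (univ.biUnion T) + ∑ i, (deg1 m i - d) * E (T i)
  have g1 : ∑ S, m S * E (S.biUnion T) = ∑ S, m S * nz E (S.biUnion T) + ∑ S, m S * Q S := by
    rw [← sum_add_distrib]
    refine sum_congr rfl fun S _ => ?_
    rw [e1 (S.biUnion T)]
    simp only [hQ]
    ring
  have g2 : E (univ.biUnion T) = nz E (univ.biUnion T) + Q univ := e1 _
  have g3 : ∑ i, (deg1 m i - d) * E (T i) = ∑ i, (deg1 m i - d) * nz E (T i) +
      ∑ i, (deg1 m i - d) * Qd (gu E) (ge E) (T i) := by
    rw [← sum_add_distrib]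
    refine sum_congr rfl fun i _ => ?_
    rw [e1 (T i)]
    ring
  rw [g1, g2, g3, h2]
  linarith

end

/-- the strong conjecture implies its numerical form -/
theorem numF_of_strong {N : ℕ} (h : StrongF N) : NumF (Fin N) := by
  rcases Nat.lt_or_ge N 5 with h4 | h4
  · exact numF_four (by rw [Fintype.card_fin]; omega)
  refine NumF_of_ps ⟨⟨0, by omega⟩, ⟨1, by omega⟩, by simp⟩ fun c h1 h2 h3 => ?_
  obtain ⟨e, he1, he2, he3, he4⟩ := h c ⟨h1, h2⟩ (by
    intro A B C hA hB hC hAB hAC hBC
    have := h3 A B C hA hB hC hAB hAC hBC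
    linarith)
  have hu : ps e univ = 0 := by unfold ps; rw [he3, mul_zero]
  refine ⟨e, he1, he2, hu, fun S => ?_⟩
  by_cases hS : 2 ≤ S.card
  · by_cases hSu : S = univ
    · rw [hSu, hu, h2, add_zero]
    · exact he4 S hS hSu
  · rw [h1 S (by omega), zero_add]
    rcases Nat.lt_or_ge S.card 1 with h5 | h5
    · rw [card_eq_zero.1 (show S.card = 0 by omega)]; simp [ps]
    · obtain ⟨a, rfl⟩ := card_eq_one.1 (show S.card = 1 by omega)
      simp [ps, he2]

/-- Let `D = ∑ c S • δ_S` be an F-nef divisor on `M̄_{0,p+1}` which has degree `0` on all F-curves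
with three parts in `L`, that is, which is pulled back from the Hassett space with light marks `L`
(the heavy marks are `∞` and the marks outside `L`). Suppose that there are

* at most three heavy marks, or
* at most four heavy marks, and `D` is symmetric in the light marks, or
* any number of heavy marks, `D` is symmetric in the light marks, and the strong F-conjecture is
  true for `M̄_{0,n}` with `n` at most the number of heavy marks plus one.

Then `D` is linearly equivalent to a nonnegative combination of boundary divisors, and `D` is nef: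
it has nonnegative degree on every curve, and even every vertex of the tree of the generic stratum
of a curve contributes a nonnegative number to the degree. -/
theorem result (p : ℕ) (c : Finset (Fin p) → ℝ) (L : Finset (Fin p)) (hc : IsDivisor c)
    (hF : FNef c) (hL : LightOn L c)
    (h : (Lᶜ).card ≤ 2 ∨ (Symmetric L c ∧ (Lᶜ).card ≤ 3) ∨
      (Symmetric L c ∧ ∀ N, N ≤ (Lᶜ).card + 1 → StrongF N)) :
    IsBoundarySum c ∧
    ∀ (q : ℕ) (T : Fin q → Finset (Fin p)) (m : Finset (Fin q) → ℝ) (d : ℝ),
      IsVertex T → IsCurve m d → 0 ≤ degree c T m d := by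
  classical
  have hcore : ∀ (ι : Type) [DecidableEq ι] [Fintype ι] (T : ι → Finset (Fin p))
      (m : Finset ι → ℝ) (d : ℝ), (∀ i, (T i).Nonempty) →
      (∀ i j, i ≠ j → Disjoint (T i) (T j)) → (∀ S, 0 ≤ m S) → 0 ≤ d → PairSum m d →
      Core c T m d := by
    intro ι _ _ T m d hT hd hm hd0 hp
    rcases h with h | ⟨hs, h⟩ | ⟨hs, h⟩
    · exact core_three hc hF hL h hT hd hm hd0 hp
    · exact core_symm hc hF hL hs (fun κ _ _ hκ => numF_four (by omega)) hT hd hm hp
    · exact core_symm hc hF hL hs (fun κ _ _ hκ =>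
        NumF_congr (Fintype.equivFin κ) (numF_of_strong (h _ hκ))) hT hd hm hp
  constructor
  · obtain ⟨e, h1, h2, h3, h4⟩ := exists_ps c hc.2 (fun w d hw hp => by
      rcases Nat.lt_or_ge p 2 with hp2 | hp2
      · have hz : ∀ S : Finset (Fin p), c S = 0 := fun S => hc.1 S (by
          have := card_le_univ S
          rw [Fintype.card_fin] at this
          omega)
        simp [hz]
      · have hd0 : 0 ≤ d := by
          rw [← hp ⟨0, by omega⟩ ⟨1, by omega⟩ (by simp)]
          exact sum_nonneg fun S _ => hw S
        have h5 := hcore (Fin p) (fun i => {i}) w d (fun i => singleton_nonempty i)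
          (fun i j hij => by simpa using hij) hw hd0 hp
        unfold Core at h5
        have e1 : ∀ S : Finset (Fin p), S.biUnion (fun i => ({i} : Finset (Fin p))) = S :=
          fun S => biUnion_singleton_eq_self
        have e2 : ∀ i : Fin p, c {i} = 0 := fun i => hc.1 {i} (by simp)
        simp only [e1, e2, hc.2, neg_zero, mul_zero, sum_const_zero, add_zero, mul_neg,
          sum_neg_distrib] at h5
        linarith)
    refine ⟨e, h1, h2, ?_, fun S _ _ => h4 S⟩
    unfold ps at h3
    linarith
  · intro q T m d hT hm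
    have h5 := hcore (Fin q) T m d hT.1 hT.2 hm.1 hm.2.1 hm.2.2.2.2
    unfold Core at h5
    unfold degree psi br
    have h6 : ∑ i, (deg1 m i - d) * (- c (T i)) =
        - ∑ i, ((∑ S ∈ univ.filter (fun S : Finset (Fin q) => i ∈ S), m S) - d) * c (T i) := by
      rw [← sum_neg_distrib]
      exact sum_congr rfl fun i _ => by unfold deg1; ring
    rw [h6] at h5
    simp only [mul_neg, sum_neg_distrib] at h5
    linarith

end Pool.Agent.Results.MP_23e236_ag.BoundarySums
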