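import Mathlib
import Pool.Agent.Results.MP_23e236_ag.SymmetricDivisors

set_option autoImplicit false

/-!
# F-nef divisors with symmetries and components with different branches

The boundary divisors of `M̄_{0,n}` are the `δ_S = δ_(Sᶜ)`, `S` a set of marks (the marks are the
elements of `Fin n`) with `2 ≤ |S| ≤ n - 2`.  A curve on `M̄_{0,n}` lies in a stratum: it moves in
the components `M̄_{0,k}` of the stratum; a component is given by a map `ν : Fin n → Fin k` onto
its special points: `ν x` is the special point to which the mark `x` is attached.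
-/

namespace Pool.Agent.Results.MP_23e236_ag.DifferentBranches

open Finset

/-- `c` is a family of coefficients: it stands for the divisor `∑ c S • δ_S`, the sum over the
unordered partitions `{S, Sᶜ}` of the marks into two sets with at least two marks. -/
def IsDivisor {n : ℕ} (c : Finset (Fin n) → ℝ) : Prop :=
  (∀ S, c Sᶜ = c S) ∧ ∀ S : Finset (Fin n), S.card ≤ 1 → c S = 0

/-- `∑ c S • δ_S` has nonnegative degree on every F-curve: the F-curve of the partition
`A, B, C, E` of the marks has degree `1` on `δ_(A∪B), δ_(A∪C), δ_(A∪E)`, degree `-1` on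
`δ_A, δ_B, δ_C, δ_E` (those of them that exist) and `0` on the other boundary divisors. -/
def FNef {n : ℕ} (c : Finset (Fin n) → ℝ) : Prop :=
  ∀ A B C E : Finset (Fin n), A.Nonempty → B.Nonempty → C.Nonempty → E.Nonempty →
    Disjoint A B → Disjoint A C → Disjoint A E → Disjoint B C → Disjoint B E → Disjoint C E →
    A ∪ B ∪ C ∪ E = univ → c A + c B + c C + c E ≤ c (A ∪ B) + c (A ∪ C) + c (A ∪ E)

/-- `m T` and `ψ i` are the degrees of `δ_T` and `ψ_i` on a curve in `M̄_{0,k}` which is not
contained in the boundary: all `m T ≥ 0`, and `ψ_i = ∑ δ_T`, the sum over the `T` that contain `i`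
and do not contain `j` and `l`, for all marks `j ≠ l` different from `i`. -/
def IsCurve {k : ℕ} (m : Finset (Fin k) → ℕ) (ψ : Fin k → ℕ) : Prop :=
  (∀ T, m Tᶜ = m T) ∧ (∀ T : Finset (Fin k), T.card ≤ 1 → m T = 0) ∧
    ∀ i j l : Fin k, i ≠ j → i ≠ l → j ≠ l →
      ∑ T ∈ univ.filter (fun T : Finset (Fin k) => i ∈ T ∧ j ∉ T ∧ l ∉ T), m T = ψ i

/-- The marks that are attached to the special points in `T`. -/
def marks {n k : ℕ} (ν : Fin n → Fin k) (T : Finset (Fin k)) : Finset (Fin n) :=
  univ.filter fun x => ν x ∈ T

/-- The degree of `∑ c S • δ_S` on a curve in the component `M̄_{0,k}` given by `ν` of a stratum: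
the restriction to the component of the divisor `δ_S`, `S` the set of marks attached to the special
points in `T`, is `δ_T` if `2 ≤ |T| ≤ k - 2`, and `-ψ_i` if `T = {i}` and `i` is a node. -/
noncomputable def degree {n k : ℕ} (c : Finset (Fin n) → ℝ) (ν : Fin n → Fin k)
    (m : Finset (Fin k) → ℕ) (ψ : Fin k → ℕ) : ℝ :=
  (∑ T, c (marks ν T) * m T) / 2 - ∑ i, c (marks ν {i}) * ψ i

/-- `∑ c S • δ_S` has nonnegative degree on all curves in the component of the stratum. -/
def NefOn {n k : ℕ} (c : Finset (Fin n) → ℝ) (ν : Fin n → Fin k) : Prop :=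
  ∀ (m : Finset (Fin k) → ℕ) (ψ : Fin k → ℕ), IsCurve m ψ → 0 ≤ degree c ν m ψ

/-- `∑ c S • δ_S` has nonnegative degree on all curves in all strata. -/
def Nef {n : ℕ} (c : Finset (Fin n) → ℝ) : Prop :=
  ∀ k : ℕ, 4 ≤ k → ∀ ν : Fin n → Fin k, Function.Surjective ν → NefOn c ν

/-- The divisor is invariant under the permutations of the marks that preserve the colours. -/
def Symmetric {n r : ℕ} (col : Fin n → Fin r) (c : Finset (Fin n) → ℝ) : Prop :=
  ∀ σ : Equiv.Perm (Fin n), (∀ x, col (σ x) = col x) →
    ∀ S : Finset (Fin n), c (S.map σ.toEmbedding) = c S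

/-- The numbers of marks of all colours that are attached to the special point `i`. -/
def branch {n k r : ℕ} (col : Fin n → Fin r) (ν : Fin n → Fin k) (i : Fin k) : Fin r → ℕ :=
  fun t => (univ.filter fun x => ν x = i ∧ col x = t).card

/-! ### Merging two equal branches -/

theorem marks_union {n k : ℕ} (ν : Fin n → Fin k) (A B : Finset (Fin k)) :
    marks ν (A ∪ B) = marks ν A ∪ marks ν B := by
  ext x; simp only [marks, mem_filter, mem_univ, true_and, mem_union]

theorem marks_compl {n k : ℕ} (ν : Fin n → Fin k) (A : Finset (Fin k)) :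
    marks ν Aᶜ = (marks ν A)ᶜ := by
  ext x; simp only [marks, mem_filter, mem_univ, true_and, mem_compl]

theorem marks_disjoint {n k : ℕ} (ν : Fin n → Fin k) {A B : Finset (Fin k)} (h : Disjoint A B) :
    Disjoint (marks ν A) (marks ν B) := by
  rw [disjoint_left]
  intro x hx hx'
  exact disjoint_left.1 h (mem_filter.1 hx).2 (mem_filter.1 hx').2

theorem marks_nonempty {n k : ℕ} {ν : Fin n → Fin k} (hν : Function.Surjective ν)
    {A : Finset (Fin k)} (h : A.Nonempty) : (marks ν A).Nonempty := by
  obtain ⟨i, hi⟩ := h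
  obtain ⟨x, rfl⟩ := hν i
  exact ⟨x, mem_filter.2 ⟨mem_univ _, hi⟩⟩

/-- The sum over the sets `S` of special points that separate `i` and `j`. -/
theorem sum_sep {k : ℕ} {m : Finset (Fin k) → ℕ} {ψ : Fin k → ℕ} (hm : IsCurve m ψ) {i j : Fin k}
    (hij : i ≠ j) (hk : 3 ≤ k) :
    ∑ S ∈ univ.filter (fun S : Finset (Fin k) => i ∈ S ∧ j ∉ S), m S = ψ i + ψ j := by
  obtain ⟨hm1, hm2, hm3⟩ := hm
  obtain ⟨l, hl⟩ : ∃ l : Fin k, l ∉ ({i, j} : Finset (Fin k)) := by
    by_contra h
    push Not at h
    have h1 : (univ : Finset (Fin k)) ⊆ {i, j} := fun x _ => h x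
    have h2 := card_le_card h1
    rw [card_univ, Fintype.card_fin] at h2
    have h3 : ({i, j} : Finset (Fin k)).card ≤ 2 := card_le_two
    omega
  rw [mem_insert, mem_singleton, not_or] at hl
  have h1 := hm3 i j l hij (Ne.symm hl.1) (Ne.symm hl.2)
  have h2 := hm3 j i l hij.symm (Ne.symm hl.2) (Ne.symm hl.1)
  rw [← h1, ← h2, ← sum_filter_add_sum_filter_not
    (univ.filter (fun S : Finset (Fin k) => i ∈ S ∧ j ∉ S)) (fun S => l ∉ S)]
  congr 1
  · refine sum_congr ?_ fun _ _ => rfl
    ext S
    simp only [mem_filter, mem_univ, true_and]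
    tauto
  · refine sum_nbij' (fun T => Tᶜ) (fun T => Tᶜ) ?_ ?_ ?_ ?_ ?_
    · intro T hT
      simp only [mem_filter, mem_univ, true_and, mem_compl, not_not] at hT ⊢
      tauto
    · intro T hT
      simp only [mem_filter, mem_univ, true_and, mem_compl, not_not] at hT ⊢
      tauto
    · intro T _; exact compl_compl T
    · intro T _; exact compl_compl T
    · intro T _; exact (hm1 T).symm

section push

variable {k : ℕ} (s : Fin k → Fin (k + 1)) (y : Fin (k + 1))

/-- The degrees of the boundary divisors on the image of the curve under the map that forgets the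
mark `y`; the other marks are the `s t`. -/
def pushM (m : Finset (Fin (k + 1)) → ℕ) (T : Finset (Fin k)) : ℕ :=
  if 2 ≤ T.card ∧ 2 ≤ Tᶜ.card then m (T.image s) + m (insert y (T.image s)) else 0

/-- The degrees of the `ψ_t` on the image of the curve. -/
def pushP (m : Finset (Fin (k + 1)) → ℕ) (ψ : Fin (k + 1) → ℕ) (t : Fin k) : ℕ :=
  ψ (s t) - m {s t, y}

theorem card_map_image {s : Fin k → Fin (k + 1)} (hs : Function.Injective s) (T : Finset (Fin k)) :
    (T.image s).card = T.card := card_image_of_injective T hs

variable {s y}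

/-- Sets of special points correspond to pairs of a set of `Fin k` and the choice whether `y` is in
the set. -/
theorem sum_push (hs : Function.Injective s) (hy : ∀ x, x = y ∨ ∃ t, s t = x) (hy' : ∀ t, s t ≠ y)
    (p : Finset (Fin k) → Prop) [DecidablePred p] (F : Finset (Fin (k + 1)) → ℝ) :
    ∑ S ∈ univ.filter (fun S : Finset (Fin (k + 1)) => p (univ.filter fun t => s t ∈ S)), F S =
      ∑ T ∈ univ.filter p, (F (T.image s) + F (insert y (T.image s))) := by
  classical
  have pre1 : ∀ T : Finset (Fin k), (univ.filter fun t => s t ∈ T.image s) = T := by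
    intro T; ext t
    simp only [mem_filter, mem_univ, true_and, mem_image]
    exact ⟨fun ⟨a, ha, h⟩ => hs h ▸ ha, fun h => ⟨t, h, rfl⟩⟩
  have pre2 : ∀ T : Finset (Fin k), (univ.filter fun t => s t ∈ insert y (T.image s)) = T := by
    intro T; ext t
    simp only [mem_filter, mem_univ, true_and, mem_insert, mem_image]
    constructor
    · rintro (h | ⟨a, ha, h⟩)
      · exact absurd h (hy' t)
      · exact hs h ▸ ha
    · intro h; exact Or.inr ⟨t, h, rfl⟩
  have ynot : ∀ T : Finset (Fin k), y ∉ T.image s := by
    intro T h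
    obtain ⟨t, _, h1⟩ := mem_image.1 h
    exact hy' t h1
  have rec1 : ∀ S : Finset (Fin (k + 1)), y ∉ S → (univ.filter fun t => s t ∈ S).image s = S := by
    intro S hS; ext x
    simp only [mem_image, mem_filter, mem_univ, true_and]
    constructor
    · rintro ⟨t, h1, rfl⟩; exact h1
    · intro hx
      rcases hy x with rfl | ⟨t, rfl⟩
      · exact absurd hx hS
      · exact ⟨t, hx, rfl⟩
  have rec2 : ∀ S : Finset (Fin (k + 1)), y ∈ S →
      insert y ((univ.filter fun t => s t ∈ S).image s) = S := by
    intro S hS; ext x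
    simp only [mem_insert, mem_image, mem_filter, mem_univ, true_and]
    constructor
    · rintro (rfl | ⟨t, h1, rfl⟩)
      · exact hS
      · exact h1
    · intro hx
      rcases hy x with rfl | ⟨t, rfl⟩
      · exact Or.inl rfl
      · exact Or.inr ⟨t, hx, rfl⟩
  rw [sum_add_distrib, ← sum_filter_not_add_sum_filter
    (univ.filter (fun S : Finset (Fin (k + 1)) => p (univ.filter fun t => s t ∈ S)))
    (fun S => y ∈ S)]
  congr 1
  · refine sum_nbij' (fun S => univ.filter fun t => s t ∈ S) (fun T => T.image s) ?_ ?_ ?_ ?_ ?_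
    · intro S hS
      simp only [mem_filter, mem_univ, true_and] at hS ⊢
      exact hS.1
    · intro T hT
      simp only [mem_filter, mem_univ, true_and] at hT ⊢
      exact ⟨by rw [pre1]; exact hT, ynot T⟩
    · intro S hS
      exact rec1 S (mem_filter.1 hS).2
    · intro T _
      exact pre1 T
    · intro S hS
      rw [rec1 S (mem_filter.1 hS).2]
  · refine sum_nbij' (fun S => univ.filter fun t => s t ∈ S) (fun T => insert y (T.image s))
      ?_ ?_ ?_ ?_ ?_
    · intro S hS
      simp only [mem_filter, mem_univ, true_and] at hS ⊢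
      exact hS.1
    · intro T hT
      simp only [mem_filter, mem_univ, true_and] at hT ⊢
      exact ⟨by rw [pre2]; exact hT, mem_insert_self _ _⟩
    · intro S hS
      exact rec2 S (mem_filter.1 hS).2
    · intro T _
      exact pre2 T
    · intro S hS
      rw [rec2 S (mem_filter.1 hS).2]

/-- The image of the curve is a curve. -/
theorem push_curve (hs : Function.Injective s) (hy : ∀ x, x = y ∨ ∃ t, s t = x)
    (hy' : ∀ t, s t ≠ y) {m : Finset (Fin (k + 1)) → ℕ} {ψ : Fin (k + 1) → ℕ}
    (hm : IsCurve m ψ) (hk : 3 ≤ k) :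
    (∀ t, m {s t, y} ≤ ψ (s t)) ∧ IsCurve (pushM s y m) (pushP s y m ψ) := by
  classical
  obtain ⟨hm1, hm2, hm3⟩ := hm
  have himc : ∀ T : Finset (Fin k), (Tᶜ).image s = (insert y (T.image s))ᶜ := by
    intro T; ext x
    simp only [mem_image, mem_compl, mem_insert, not_or, not_exists, not_and]
    constructor
    · rintro ⟨t, ht, rfl⟩
      exact ⟨hy' t, fun a ha h => ht (hs h ▸ ha)⟩
    · rintro ⟨h1, h2⟩
      rcases hy x with h | ⟨t, rfl⟩
      · exact absurd h h1
      · exact ⟨t, fun ht => h2 t ht rfl, rfl⟩
  have himc' : ∀ T : Finset (Fin k), insert y ((Tᶜ).image s) = (T.image s)ᶜ := by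
    intro T
    rw [← compl_inj_iff (x := insert y ((Tᶜ).image s)), ← himc, compl_compl, compl_compl]
  have hsym : ∀ T : Finset (Fin k), m ((Tᶜ).image s) + m (insert y ((Tᶜ).image s)) =
      m (T.image s) + m (insert y (T.image s)) := by
    intro T
    rw [himc', himc, hm1, hm1, add_comm]
  have hle : ∀ a b l : Fin k, a ≠ b → a ≠ l → b ≠ l →
      m {s a, y} + ∑ T ∈ univ.filter (fun T : Finset (Fin k) => a ∈ T ∧ b ∉ T ∧ l ∉ T),
        pushM s y m T = ψ (s a) := by
    intro a b l hab hal hbl
    have h1 := hm3 (s a) (s b) (s l) (fun h => hab (hs h)) (fun h => hal (hs h))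
      (fun h => hbl (hs h))
    have h2 := sum_push hs hy hy' (fun T : Finset (Fin k) => a ∈ T ∧ b ∉ T ∧ l ∉ T)
      (fun S => (m S : ℝ))
    simp only [mem_filter, mem_univ, true_and] at h2
    have h3 : (ψ (s a) : ℝ) = ∑ T ∈ univ.filter (fun T : Finset (Fin k) => a ∈ T ∧ b ∉ T ∧ l ∉ T),
        ((m (T.image s) : ℝ) + (m (insert y (T.image s)) : ℝ)) := by
      rw [← h2, ← h1]; push_cast; rfl
    have h4 : ψ (s a) = ∑ T ∈ univ.filter (fun T : Finset (Fin k) => a ∈ T ∧ b ∉ T ∧ l ∉ T),
        (m (T.image s) + m (insert y (T.image s))) := by exact_mod_cast h3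
    have ha : ({a} : Finset (Fin k)) ∈
        univ.filter (fun T : Finset (Fin k) => a ∈ T ∧ b ∉ T ∧ l ∉ T) := by
      simp only [mem_filter, mem_univ, true_and, mem_singleton]
      exact ⟨Ne.symm hab, Ne.symm hal⟩
    have E1 := (add_sum_erase _ (fun T : Finset (Fin k) =>
      m (T.image s) + m (insert y (T.image s))) ha).symm
    have E2 := (add_sum_erase _ (pushM s y m) ha).symm
    rw [h4, E1, E2]
    have h5 : pushM s y m {a} = 0 := by
      simp [pushM]
    have h6 : m (({a} : Finset (Fin k)).image s) = 0 := by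
      rw [image_singleton]; exact hm2 _ (by simp)
    have h7 : insert y (({a} : Finset (Fin k)).image s) = {s a, y} := by
      rw [image_singleton]; exact pair_comm _ _
    rw [h5, h6, h7, zero_add, zero_add]
    congr 1
    refine sum_congr rfl fun T hT => ?_
    obtain ⟨hTa, hT⟩ := mem_erase.1 hT
    simp only [mem_filter, mem_univ, true_and] at hT
    have h8 : 2 ≤ T.card := by
      by_contra h
      have h9 : T.card ≤ 1 := by omega
      refine hTa (eq_singleton_iff_unique_mem.2 ⟨hT.1, fun x hx => ?_⟩)
      exact card_le_one.1 h9 x hx a hT.1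
    have h9 : 2 ≤ Tᶜ.card := by
      have : ({b, l} : Finset (Fin k)) ⊆ Tᶜ := by
        intro x hx
        rw [mem_insert, mem_singleton] at hx
        rw [mem_compl]
        rcases hx with rfl | rfl
        · exact hT.2.1
        · exact hT.2.2
      have h10 := card_le_card this
      rwa [card_pair hbl] at h10
    rw [pushM, if_pos ⟨h8, h9⟩]
  have hthree : ∀ a : Fin k, ∃ b l : Fin k, a ≠ b ∧ a ≠ l ∧ b ≠ l := by
    intro a
    have h1 : 1 < ((univ : Finset (Fin k)).erase a).card := by
      rw [card_erase_of_mem (mem_univ _), card_univ, Fintype.card_fin]; omega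
    obtain ⟨b, hb, l, hl, hbl⟩ := one_lt_card.1 h1
    exact ⟨b, l, Ne.symm (mem_erase.1 hb).1, Ne.symm (mem_erase.1 hl).1, hbl⟩
  refine ⟨fun t => ?_, ?_, ?_, ?_⟩
  · obtain ⟨b, l, h1, h2, h3⟩ := hthree t
    rw [← hle t b l h1 h2 h3]
    exact Nat.le_add_right _ _
  · intro T
    simp only [pushM, compl_compl, hsym T]
    congr 1
    exact propext ⟨fun h => ⟨h.2, h.1⟩, fun h => ⟨h.2, h.1⟩⟩
  · intro T hT
    rw [pushM, if_neg]
    omega
  · intro a b l hab hal hbl
    have := hle a b l hab hal hbl
    rw [pushP]
    omega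

/-- The degree on the image of the curve. -/
theorem push_degree {n : ℕ} (hs : Function.Injective s) (hy : ∀ x, x = y ∨ ∃ t, s t = x)
    (hy' : ∀ t, s t ≠ y) {m : Finset (Fin (k + 1)) → ℕ} {ψ : Fin (k + 1) → ℕ}
    (hm : IsCurve m ψ) (hk : 3 ≤ k) {c : Finset (Fin n) → ℝ} (hc : IsDivisor c)
    (ν' : Fin n → Fin k) :
    degree c ν' (pushM s y m) (pushP s y m ψ) =
      (∑ S : Finset (Fin (k + 1)), c (marks ν' (univ.filter fun t => s t ∈ S)) * m S) / 2 -
        ∑ t, c (marks ν' {t}) * ψ (s t) := by
  classical
  obtain ⟨hle, -⟩ := push_curve hs hy hy' hm hk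
  obtain ⟨hm1, hm2, hm3⟩ := hm
  have pre1 : ∀ T : Finset (Fin k), (univ.filter fun t => s t ∈ T.image s) = T := by
    intro T; ext t
    simp only [mem_filter, mem_univ, true_and, mem_image]
    exact ⟨fun ⟨a, ha, h⟩ => hs h ▸ ha, fun h => ⟨t, h, rfl⟩⟩
  have pre2 : ∀ T : Finset (Fin k), (univ.filter fun t => s t ∈ insert y (T.image s)) = T := by
    intro T; ext t
    simp only [mem_filter, mem_univ, true_and, mem_insert, mem_image]
    constructor
    · rintro (h | ⟨a, ha, h⟩)
      · exact absurd h (hy' t)
      · exact hs h ▸ ha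
    · intro h; exact Or.inr ⟨t, h, rfl⟩
  have h1 := sum_push hs hy hy' (fun _ : Finset (Fin k) => True)
    (fun S => c (marks ν' (univ.filter fun t => s t ∈ S)) * m S)
  simp only [filter_true, pre1, pre2, ← mul_add] at h1
  rw [h1]
  -- split off the small sets
  set Q : Finset (Fin k) → ℝ := fun T => (m (T.image s) : ℝ) + m (insert y (T.image s)) with hQ
  have himc : ∀ T : Finset (Fin k), (Tᶜ).image s = (insert y (T.image s))ᶜ := by
    intro T; ext x
    simp only [mem_image, mem_compl, mem_insert, not_or, not_exists, not_and]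
    constructor
    · rintro ⟨t, ht, rfl⟩
      exact ⟨hy' t, fun a ha h => ht (hs h ▸ ha)⟩
    · rintro ⟨h1, h2⟩
      rcases hy x with h | ⟨t, rfl⟩
      · exact absurd h h1
      · exact ⟨t, fun ht => h2 t ht rfl, rfl⟩
  have himc' : ∀ T : Finset (Fin k), insert y ((Tᶜ).image s) = (T.image s)ᶜ := by
    intro T
    rw [← compl_inj_iff (x := insert y ((Tᶜ).image s)), ← himc, compl_compl, compl_compl]
  have hQc : ∀ T, Q Tᶜ = Q T := by
    intro T
    simp only [hQ]
    rw [himc', himc, hm1, hm1, add_comm]
  have hQ1 : ∀ t, Q {t} = m {s t, y} := by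
    intro t
    have e1 : m (({t} : Finset (Fin k)).image s) = 0 := by
      rw [image_singleton]; exact hm2 _ (by simp)
    have e2 : insert y (({t} : Finset (Fin k)).image s) = {s t, y} := by
      rw [image_singleton]; exact pair_comm _ _
    simp only [hQ, e1, e2]; simp
  have hc0 : c (marks ν' ∅) = 0 := by
    have : marks ν' ∅ = ∅ := by ext x; simp [marks]
    rw [this]; exact hc.2 _ (by simp)
  have hcu : c (marks ν' univ) = 0 := by
    have : (univ : Finset (Fin k)) = (∅ : Finset (Fin k))ᶜ := by simp
    rw [this, marks_compl, hc.1, hc0]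
  have hcc : ∀ T : Finset (Fin k), c (marks ν' Tᶜ) = c (marks ν' T) := by
    intro T; rw [marks_compl, hc.1]
  have h2 : ∑ T : Finset (Fin k), c (marks ν' T) * Q T =
      ∑ T : Finset (Fin k), c (marks ν' T) * (pushM s y m T : ℝ) +
        2 * ∑ t, c (marks ν' {t}) * (m {s t, y} : ℝ) := by
    -- the sets that are not counted by pushM
    have e1 : ∀ T : Finset (Fin k), c (marks ν' T) * Q T = c (marks ν' T) * (pushM s y m T : ℝ) +
        ((if T.card = 1 then c (marks ν' T) * Q T else 0) +
          (if Tᶜ.card = 1 then c (marks ν' T) * Q T else 0)) := by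
      intro T
      have hcard : T.card + Tᶜ.card = k := by
        rw [card_add_card_compl, Fintype.card_fin]
      by_cases a1 : T.card = 0
      · rw [card_eq_zero.1 a1, hc0]; simp
      by_cases a2 : Tᶜ.card = 0
      · have : T = univ := by
          rw [card_eq_zero] at a2
          rw [← compl_compl T, a2, compl_empty]
        rw [this, hcu]; simp
      by_cases a3 : T.card = 1
      · have a4 : Tᶜ.card ≠ 1 := by omega
        rw [if_pos a3, if_neg a4, pushM, if_neg (by omega)]; simp
      by_cases a4 : Tᶜ.card = 1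
      · rw [if_neg a3, if_pos a4, pushM, if_neg (by omega)]; simp
      · rw [if_neg a3, if_neg a4, pushM, if_pos (by omega)]
        simp [hQ]
    rw [sum_congr rfl fun T _ => e1 T, sum_add_distrib, sum_add_distrib]
    have e2 : ∑ T : Finset (Fin k), (if Tᶜ.card = 1 then c (marks ν' T) * Q T else 0) =
        ∑ T : Finset (Fin k), (if T.card = 1 then c (marks ν' T) * Q T else 0) := by
      refine sum_nbij' (fun T => Tᶜ) (fun T => Tᶜ) ?_ ?_ ?_ ?_ ?_
      · intro T _; exact mem_univ _
      · intro T _; exact mem_univ _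
      · intro T _; exact compl_compl T
      · intro T _; exact compl_compl T
      · intro T _; simp only [hcc, hQc]
    have e3 : ∑ T : Finset (Fin k), (if T.card = 1 then c (marks ν' T) * Q T else 0) =
        ∑ t, c (marks ν' {t}) * (m {s t, y} : ℝ) := by
      rw [← sum_filter]
      symm
      refine sum_nbij (fun t => {t}) ?_ ?_ ?_ ?_
      · intro t _; simp
      · intro a _ b _ h; exact singleton_injective h
      · intro T hT
        simp only [coe_filter, mem_univ, true_and, Set.mem_ofPred_eq] at hT
        obtain ⟨a, ha⟩ := card_eq_one.1 hT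
        exact ⟨a, by simp, ha.symm⟩
      · intro t _; rw [hQ1]
    rw [e2, e3]; ring
  have h3 : ∑ t, c (marks ν' {t}) * (pushP s y m ψ t : ℝ) =
      ∑ t, c (marks ν' {t}) * ψ (s t) - ∑ t, c (marks ν' {t}) * (m {s t, y} : ℝ) := by
    rw [← sum_sub_distrib]
    refine sum_congr rfl fun t _ => ?_
    rw [pushP, Nat.cast_sub (hle t)]; ring
  rw [h2, degree, h3]
  ring

end push

/-- If the branches at the special points `i` and `j` can be exchanged and the divisor has
nonnegative degree on all curves in the component in which `i` and `j` are merged, it has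
nonnegative degree on all curves in the component. -/
theorem merge {n k : ℕ} (hk : 3 ≤ k) {c : Finset (Fin n) → ℝ} (hc : IsDivisor c) (hF : FNef c)
    {ν : Fin n → Fin (k + 1)} (hν : Function.Surjective ν) {i j : Fin (k + 1)} (hij : i ≠ j)
    (hsw : ∀ S : Finset (Fin (k + 1)), i ∈ S → j ∉ S →
      c (marks ν (insert j (S.erase i))) = c (marks ν S))
    (hnef : ∀ ν' : Fin n → Fin k, Function.Surjective ν' → NefOn c ν') : NefOn c ν := by
  classical
  intro m ψ hm
  set s : Fin k → Fin (k + 1) := j.succAbove with hs
  have hsi : Function.Injective s := Fin.succAbove_right_injective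
  have hsj : ∀ t, s t ≠ j := fun t => Fin.succAbove_ne j t
  have hsx : ∀ x, x ≠ j → ∃ t, s t = x := fun x hx => Fin.exists_succAbove_eq hx
  obtain ⟨e, he⟩ := hsx i hij
  have : Nonempty (Fin k) := ⟨e⟩
  obtain ⟨π, hπ1, hπ2⟩ : ∃ π : Fin (k + 1) → Fin k, (∀ t, π (s t) = t) ∧ π j = e := by
    refine ⟨fun x => if x = j then e else Function.invFun s x, fun t => ?_, by simp⟩
    simp only [if_neg (hsj t)]
    exact Function.leftInverse_invFun hsi t
  set s' : Fin k → Fin (k + 1) := fun t => if s t = i then j else s t with hs'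
  have hs'e : s' e = j := by simp [hs', he]
  have hs'n : ∀ t, t ≠ e → s' t = s t := by
    intro t ht
    have : s t ≠ i := fun h => ht (hsi (h.trans he.symm))
    simp [hs', this]
  have hs'i : Function.Injective s' := by
    intro a b hab
    by_cases ha : a = e
    · by_cases hb : b = e
      · rw [ha, hb]
      · rw [ha, hs'e, hs'n b hb] at hab
        exact absurd hab.symm (hsj b)
    · by_cases hb : b = e
      · rw [hb, hs'e, hs'n a ha] at hab
        exact absurd hab (hsj a)
      · rw [hs'n a ha, hs'n b hb] at hab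
        exact hsi hab
  have hs'x : ∀ x, x = i ∨ ∃ t, s' t = x := by
    intro x
    by_cases hx : x = j
    · exact Or.inr ⟨e, by rw [hs'e, hx]⟩
    · by_cases hx' : x = i
      · exact Or.inl hx'
      · obtain ⟨t, ht⟩ := hsx x hx
        have : t ≠ e := fun h => hx' (by rw [← ht, h, he])
        exact Or.inr ⟨t, by rw [hs'n t this, ht]⟩
  have hs'ne : ∀ t, s' t ≠ i := by
    intro t
    by_cases ht : t = e
    · rw [ht, hs'e]; exact hij.symm
    · rw [hs'n t ht]
      exact fun h => ht (hsi (h.trans he.symm))
  have hsx' : ∀ x, x = j ∨ ∃ t, s t = x := by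
    intro x
    by_cases hx : x = j
    · exact Or.inl hx
    · exact Or.inr (hsx x hx)
  have hπs' : ∀ t, π (s' t) = t := by
    intro t
    by_cases ht : t = e
    · rw [ht, hs'e, hπ2]
    · rw [hs'n t ht, hπ1]
  have hπi : π i = e := by rw [← he, hπ1]
  have hsurj : Function.Surjective (π ∘ ν) := by
    intro t
    obtain ⟨x, hx⟩ := hν (s t)
    exact ⟨x, by rw [Function.comp, hx, hπ1]⟩
  set C : Finset (Fin (k + 1)) → ℝ := fun S => c (marks ν S) with hC
  have hsp : ∀ x, x ≠ j → s (π x) = x := by
    intro x hx
    obtain ⟨t, rfl⟩ := hsx x hx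
    rw [hπ1]
  have hsp' : ∀ x, x ≠ i → x ≠ j → s' (π x) = x := by
    intro x hxi hxj
    obtain ⟨t, rfl⟩ := hsx x hxj
    rw [hπ1, hs'n]
    exact fun h => hxi (by rw [h, he])
  have mk : ∀ T : Finset (Fin k), marks (π ∘ ν) T = marks ν (univ.filter fun x => π x ∈ T) := by
    intro T; ext x
    simp only [marks, Function.comp, mem_filter, mem_univ, true_and]
  -- the two sets attached to S
  have hSi : ∀ S : Finset (Fin (k + 1)), c (marks (π ∘ ν) (univ.filter fun t => s t ∈ S)) =
      if i ∈ S then C (insert j S) else C (S.erase j) := by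
    intro S
    rw [mk]
    split_ifs with h
    · simp only [hC]; congr 2; ext x
      simp only [mem_filter, mem_univ, true_and, mem_insert]
      by_cases hx : x = j
      · simp [hx, hπ2, he, h]
      · rw [hsp x hx]; simp [hx]
    · simp only [hC]; congr 2; ext x
      simp only [mem_filter, mem_univ, true_and, mem_erase]
      by_cases hx : x = j
      · simp [hx, hπ2, he, h]
      · rw [hsp x hx]; simp [hx]
  have hSj : ∀ S : Finset (Fin (k + 1)), c (marks (π ∘ ν) (univ.filter fun t => s' t ∈ S)) =
      if j ∈ S then C (insert i S) else C (S.erase i) := by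
    intro S
    rw [mk]
    split_ifs with h
    · simp only [hC]; congr 2; ext x
      simp only [mem_filter, mem_univ, true_and, mem_insert]
      by_cases hx : x = i
      · simp [hx, hπi, hs'e, h]
      · by_cases hx' : x = j
        · simp [hx', hπ2, hs'e, h]
        · rw [hsp' x hx hx']; simp [hx]
    · simp only [hC]; congr 2; ext x
      simp only [mem_filter, mem_univ, true_and, mem_erase]
      by_cases hx : x = i
      · simp [hx, hπi, hs'e, h]
      · by_cases hx' : x = j
        · simp [hx', hπ2, hs'e, h]
        · rw [hsp' x hx hx']; simp [hx]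
  have hd1 := hnef (π ∘ ν) hsurj _ _ (push_curve hsi hsx' hsj hm hk).2
  have hd2 := hnef (π ∘ ν) hsurj _ _ (push_curve hs'i hs'x hs'ne hm hk).2
  rw [push_degree hsi hsx' hsj hm hk hc] at hd1
  rw [push_degree hs'i hs'x hs'ne hm hk hc] at hd2
  simp only [hSi] at hd1
  simp only [hSj] at hd2
  obtain ⟨hm1, hm2, hm3⟩ := hm
  -- the linear parts
  have hlin : ∀ s₁ : Fin k → Fin (k + 1), (∀ t, t ≠ e → s₁ t = s t) →
      ∑ t, c (marks (π ∘ ν) {t}) * (ψ (s₁ t) : ℝ) =
        C {i, j} * ψ (s₁ e) + ∑ x ∈ (univ.erase i).erase j, C {x} * ψ x := by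
    intro s₁ h₁
    rw [← add_sum_erase univ _ (mem_univ e)]
    congr 1
    · rw [mk]
      congr 1
      show c _ = c _
      congr 1
      ext x
      simp only [marks, mem_filter, mem_univ, true_and, mem_singleton, mem_insert]
      constructor
      · intro h
        by_cases hx : ν x = j
        · exact Or.inr hx
        · left; rw [← hsp (ν x) hx, h, he]
      · rintro (h | h)
        · rw [h, hπi]
        · rw [h, hπ2]
    · refine sum_nbij s ?_ ?_ ?_ ?_
      · intro t ht
        have ht' := (mem_erase.1 ht).1
        refine mem_erase.2 ⟨hsj t, mem_erase.2 ⟨fun h => ht' (hsi (h.trans he.symm)), mem_univ _⟩⟩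
      · exact fun a _ b _ h => hsi h
      · intro x hx
        have hx1 := mem_erase.1 hx
        have hx2 := mem_erase.1 hx1.2
        obtain ⟨t, ht⟩ := hsx x hx1.1
        refine ⟨t, ?_, ht⟩
        have : t ≠ e := fun h => hx2.1 (by rw [← ht, h, he])
        simpa using this
      · intro t ht
        have ht' := (mem_erase.1 ht).1
        rw [h₁ t ht', mk]
        congr 1
        show c _ = c _
        congr 1
        ext x
        simp only [marks, mem_filter, mem_univ, true_and, mem_singleton]
        constructor
        · intro h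
          by_cases hx : ν x = j
          · rw [hx, hπ2] at h
            exact absurd h.symm ht'
          · rw [← hsp (ν x) hx, h]
        · intro h; rw [h, hπ1]
  rw [hlin s (fun _ _ => rfl), he] at hd1
  rw [hlin s' hs'n, hs'e] at hd2
  -- the F-inequality
  have hCij : C {j} = C {i} := by
    have := hsw {i} (mem_singleton_self i) (by simp [hij.symm])
    simpa [hC] using this
  have sep : ∀ (u v : Fin (k + 1)), u ≠ v →
      (∀ S : Finset (Fin (k + 1)), u ∈ S → v ∉ S → C (insert v (S.erase u)) = C S) →
      ∀ S : Finset (Fin (k + 1)), u ∈ S → v ∉ S →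
      (C (insert v S) + C (S.erase u)) * (m S : ℝ) ≤
        (2 * C S + (C {u, v} - C {u} - C {v})) * m S := by
    intro u v huv hsw' S hu hv
    by_cases hD : (S.erase u) = ∅
    · have : S.card ≤ 1 := by
        have h1 := card_erase_of_mem hu
        rw [hD, card_empty] at h1
        omega
      rw [hm2 S this]; simp
    by_cases hE : (insert v S)ᶜ = ∅
    · have : Sᶜ.card ≤ 1 := by
        have h1 : Sᶜ ⊆ {v} := by
          intro x hx
          rw [mem_compl] at hx
          have h2 : x ∈ insert v S := by
            by_contra h3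
            have : x ∈ (insert v S)ᶜ := mem_compl.2 h3
            rw [hE] at this
            exact absurd this (notMem_empty x)
          rcases mem_insert.1 h2 with h4 | h4
          · exact mem_singleton.2 h4
          · exact absurd h4 hx
        exact (card_le_card h1).trans (by simp)
      rw [← hm1 S, hm2 Sᶜ this]; simp
    refine mul_le_mul_of_nonneg_right ?_ (Nat.cast_nonneg _)
    have hDn := nonempty_iff_ne_empty.2 hD
    have hEn := nonempty_iff_ne_empty.2 hE
    have d1 : Disjoint ({u} : Finset (Fin (k + 1))) {v} := by simp [huv]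
    have d2 : Disjoint ({u} : Finset (Fin (k + 1))) (S.erase u) := by simp
    have d3 : Disjoint ({u} : Finset (Fin (k + 1))) (insert v S)ᶜ := by
      rw [disjoint_singleton_left, mem_compl, not_not]
      exact mem_insert_of_mem hu
    have d4 : Disjoint ({v} : Finset (Fin (k + 1))) (S.erase u) := by
      rw [disjoint_singleton_left, mem_erase]
      exact fun h => hv h.2
    have d5 : Disjoint ({v} : Finset (Fin (k + 1))) (insert v S)ᶜ := by
      rw [disjoint_singleton_left, mem_compl, not_not]
      exact mem_insert_self _ _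
    have d6 : Disjoint (S.erase u) (insert v S)ᶜ := by
      rw [disjoint_left]
      intro x hx hx'
      rw [mem_compl] at hx'
      exact hx' (mem_insert_of_mem (mem_erase.1 hx).2)
    have h1 := hF (marks ν {u}) (marks ν {v}) (marks ν (S.erase u)) (marks ν (insert v S)ᶜ)
      (marks_nonempty hν (singleton_nonempty u)) (marks_nonempty hν (singleton_nonempty v))
      (marks_nonempty hν hDn) (marks_nonempty hν hEn) (marks_disjoint ν d1) (marks_disjoint ν d2)
      (marks_disjoint ν d3) (marks_disjoint ν d4) (marks_disjoint ν d5) (marks_disjoint ν d6) (by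
        rw [← marks_union, ← marks_union, ← marks_union]
        have : ({u} : Finset (Fin (k + 1))) ∪ {v} ∪ S.erase u ∪ (insert v S)ᶜ = univ := by
          ext x
          simp only [mem_union, mem_singleton, mem_erase, mem_compl, mem_insert, mem_univ,
            iff_true]
          by_cases h1 : x = u <;> by_cases h2 : x = v <;> by_cases h3 : x ∈ S <;> simp [h1, h2, h3]
        rw [this]; ext x; simp [marks])
    rw [← marks_union, ← marks_union, ← marks_union] at h1
    have e1 : c (marks ν (insert v S)ᶜ) = C (insert v S) := by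
      simp only [hC]; rw [marks_compl, hc.1]
    have e2 : ({u} : Finset (Fin (k + 1))) ∪ {v} = {u, v} := rfl
    have e3 : ({u} : Finset (Fin (k + 1))) ∪ S.erase u = S := by
      rw [← insert_eq, insert_erase hu]
    have e4 : c (marks ν ({u} ∪ (insert v S)ᶜ)) = C S := by
      have : ({u} : Finset (Fin (k + 1))) ∪ (insert v S)ᶜ = (insert v (S.erase u))ᶜ := by
        ext x
        simp only [mem_union, mem_singleton, mem_compl, mem_insert, mem_erase]
        by_cases h1 : x = u
        · subst h1; simp [huv]
        · simp [h1]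
      rw [this, marks_compl, hc.1]
      exact hsw' S hu hv
    rw [e1, e2, e3, e4] at h1
    simp only [hC] at h1 ⊢
    linarith
  have hsw2 : ∀ S : Finset (Fin (k + 1)), j ∈ S → i ∉ S → C (insert i (S.erase j)) = C S := by
    intro S hj hi
    have h1 := hsw (insert i (S.erase j)) (mem_insert_self _ _) (by
      rw [mem_insert, mem_erase]; push Not; exact ⟨hij.symm, fun h => absurd rfl h⟩)
    have h2 : insert j ((insert i (S.erase j)).erase i) = S := by
      rw [erase_insert (by rw [mem_erase]; exact fun h => hi h.2), insert_erase hj]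
    rw [h2] at h1
    exact h1.symm
  -- the sum over all sets
  have hsum : ∑ S : Finset (Fin (k + 1)), (if i ∈ S then C (insert j S) else C (S.erase j)) * m S +
      ∑ S : Finset (Fin (k + 1)), (if j ∈ S then C (insert i S) else C (S.erase i)) * m S ≤
      2 * ∑ S : Finset (Fin (k + 1)), C S * m S +
        (C {i, j} - 2 * C {i}) * (∑ S ∈ univ.filter (fun S : Finset (Fin (k + 1)) =>
          i ∈ S ∧ j ∉ S), (m S : ℝ) + ∑ S ∈ univ.filter (fun S : Finset (Fin (k + 1)) =>
          j ∈ S ∧ i ∉ S), (m S : ℝ)) := by
    rw [← sum_add_distrib, mul_add, mul_sum, mul_sum, mul_sum, sum_filter, sum_filter,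
      ← sum_add_distrib, ← sum_add_distrib]
    refine sum_le_sum fun S _ => ?_
    by_cases hi : i ∈ S
    · by_cases hj : j ∈ S
      · have e1 : insert j S = S := insert_eq_self.2 hj
        have e2 : insert i S = S := insert_eq_self.2 hi
        simp only [hi, hj, if_true, e1, e2, not_true_eq_false, and_false, if_false, add_zero]
        linarith
      · have h1 := sep i j hij hsw S hi hj
        simp only [hi, hj, if_true, if_false, not_false_eq_true, and_self, not_true_eq_false,
          add_zero]
        rw [hCij] at h1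
        linarith
    · by_cases hj : j ∈ S
      · have h1 := sep j i hij.symm hsw2 S hj hi
        have e1 : ({j, i} : Finset (Fin (k + 1))) = {i, j} := pair_comm _ _
        simp only [hi, hj, if_true, if_false, not_false_eq_true, and_self, not_true_eq_false,
          zero_add, add_zero]
        rw [hCij, e1] at h1
        linarith
      · have e1 : S.erase j = S := erase_eq_of_notMem hj
        have e2 : S.erase i = S := erase_eq_of_notMem hi
        simp only [hi, hj, if_false, e1, e2, false_and, add_zero]
        linarith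
  have hs1 : (∑ S ∈ univ.filter (fun S : Finset (Fin (k + 1)) => i ∈ S ∧ j ∉ S), (m S : ℝ)) =
      ψ i + ψ j := by
    exact_mod_cast sum_sep ⟨hm1, hm2, hm3⟩ hij (by omega)
  have hs2 : (∑ S ∈ univ.filter (fun S : Finset (Fin (k + 1)) => j ∈ S ∧ i ∉ S), (m S : ℝ)) =
      ψ j + ψ i := by
    exact_mod_cast sum_sep ⟨hm1, hm2, hm3⟩ hij.symm (by omega)
  rw [hs1, hs2] at hsum
  have hdeg : ∑ x, c (marks ν {x}) * (ψ x : ℝ) =
      C {i} * ψ i + (C {j} * ψ j + ∑ x ∈ (univ.erase i).erase j, C {x} * ψ x) := by
    rw [← add_sum_erase univ _ (mem_univ i),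
      ← add_sum_erase (univ.erase i) _ (mem_erase.2 ⟨hij.symm, mem_univ j⟩)]
  unfold degree
  rw [hdeg, hCij]
  simp only [hC] at hd1 hd2 hsum ⊢
  nlinarith [hd1, hd2, hsum]

/-- Components with different branches suffice. -/
theorem nefOn_all {n r : ℕ} {col : Fin n → Fin r} {c : Finset (Fin n) → ℝ} (hc : IsDivisor c)
    (hF : FNef c) (hS : Symmetric col c)
    (h : ∀ k : ℕ, 8 ≤ k → ∀ ν : Fin n → Fin k, Function.Surjective ν →
      Function.Injective (branch col ν) → NefOn c ν) :
    ∀ k : ℕ, 4 ≤ k → ∀ ν : Fin n → Fin k, Function.Surjective ν → NefOn c ν := by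
  classical
  intro k
  induction k with
  | zero => intro hk; omega
  | succ k ih =>
    intro hk ν hν
    by_cases h7 : k + 1 ≤ 7
    · have h1 : ((univ.erase (0 : Fin (k + 1))).image
          (SymmetricDivisors.branch col ν)).card ≤ 6 := by
        refine card_image_le.trans ?_
        rw [card_erase_of_mem (mem_univ _), card_univ, Fintype.card_fin]
        omega
      exact SymmetricDivisors.nefOn (by norm_num) Pool.Agent.Q83.FC.base6 (by omega) hc hF hS hν 0
        h1
    by_cases hinj : Function.Injective (branch col ν)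
    · exact h (k + 1) (by omega) ν hν hinj
    · rw [Function.Injective] at hinj
      push Not at hinj
      obtain ⟨i, j, hbr, hij⟩ := hinj
      refine merge (by omega) hc hF hν hij (fun S hi hj => ?_) (ih (by omega))
      have hcnt : ∀ t, ((marks ν (insert j (S.erase i))).filter fun x => col x = t).card =
          ((marks ν S).filter fun x => col x = t).card := by
        intro t
        have e1 := SymmetricDivisors.card_marks_col col ν (insert j (S.erase i)) t
        have e2 := SymmetricDivisors.card_marks_col col ν S t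
        refine e1.trans (Eq.trans ?_ e2.symm)
        rw [sum_insert (fun h' => hj (mem_erase.1 h').2), ← add_sum_erase S _ hi]
        congr 1
        exact (congrFun hbr t).symm
      obtain ⟨σ, hσ1, hσ2⟩ := Pool.Agent.Q83.FC.exists_perm_col col hcnt
      rw [← hσ2, hS σ hσ1]

/-- Let `D = ∑ c S • δ_S` be an F-nef divisor on `M̄_{0,n}` that is invariant under the permutations
of the marks that preserve the colours, for a colouring of the marks. Then `D` is nef if (and only
if) it has nonnegative degree on all curves that move in a component `M̄_{0,k}`, `k ≥ 8`, of a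
stratum such that the branches at the special points of the component are pairwise different: for
all special points `i ≠ j` there is a colour such that the numbers of marks of this colour on the
branches at `i` and `j` are different. -/
theorem result (n r : ℕ) (col : Fin n → Fin r) (c : Finset (Fin n) → ℝ) (hc : IsDivisor c)
    (hF : FNef c) (hS : Symmetric col c) :
    Nef c ↔ ∀ k : ℕ, 8 ≤ k → ∀ ν : Fin n → Fin k, Function.Surjective ν →
      Function.Injective (branch col ν) → NefOn c ν :=
  ⟨fun h k hk ν hν _ => h k (by omega) ν hν, fun h => nefOn_all hc hF hS h⟩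

end Pool.Agent.Results.MP_23e236_ag.DifferentBranches
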