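import Pool.Agent.Q140.FC.Fix

set_option autoImplicit false

/-!
# F-nef divisors on `M̄_{0,n}` which come from spaces with light marks

The marks are `0, …, p-1` (the type `Fin p`) and `∞`, so `n = p + 1`.  The boundary divisors of
`M̄_{0,n}` are the `δ_S`, `S` a set of marks different from `∞` with `2 ≤ |S| < p` (`δ_S`
separates `S` from the other marks).

Let `L` be a set of marks different from `∞`.  The Hassett space `M̄_{0,A}`, in which the marks of
`L` are light (their weights are very small, so that they may collide with each other) and all other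
marks, `∞` among them, are heavy (of weight one), is a contraction `M̄_{0,n} → M̄_{0,A}`.  The
F-curves which it contracts are those with three parts in `L`, and the pull-backs of divisors from
`M̄_{0,A}` have degree `0` on them (`LightOn`).

We prove that F-nef divisors which are pulled back from `M̄_{0,A}` have nonnegative degree

* on all curves, if there are at most three heavy marks: so the F-conjecture is true for the
  spaces `M̄_{0,(1,1,1,ε,…,ε)}`;
* for any number of heavy marks, on all curves in the fibres of the map which forgets the light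
  marks (so on all curves along which the heavy marks do not move with respect to each other).

All curves in `M̄_{0,n}` are considered, also those in the boundary. A curve lies generically in an
open stratum, which is a product over the vertices of a tree; its degree is the sum of the
contributions of the vertices. At a vertex there are a branch which contains `∞` and other
branches, with sets `T 0, …, T (q-1)` of marks: these are nonempty disjoint sets (`IsVertex`), and
the component moves in `M̄_{0,q+1}`. On this factor `∑ c S • δ_S` restricts to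
`∑ c (T_S) • δ_S - ∑ c (T i) • ψ_i - c (T_univ) • ψ_∞`, where `T_S` (`br T S`) is the union of the
`T i`, `i ∈ S`. (The curves which meet the interior are the case `q = p`, `T i = {i}`.)
-/

namespace Pool.Agent.Results.MP_23e236_ag.ThreeHeavyMarks

open Finset Pool.Agent.Q140.FC

variable {p q : ℕ}

/-- `c` is a family of coefficients: it stands for the divisor `∑ c S • δ_S`, the sum over the
`S` with `2 ≤ |S| < p`; it vanishes on the sets that give no boundary divisor. -/
def IsDivisor (c : Finset (Fin p) → ℝ) : Prop :=
  (∀ S : Finset (Fin p), S.card ≤ 1 → c S = 0) ∧ c univ = 0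

/-- `∑ c S • δ_S` has nonnegative degree on every F-curve: the F-curve of the partition
`A, B, C, (the rest, with ∞)` of the marks has degree `1` on `δ_(A∪B), δ_(A∪C), δ_(B∪C)`, degree
`-1` on `δ_A, δ_B, δ_C, δ_(A∪B∪C)` (those of them that exist) and `0` on the others. -/
def FNef (c : Finset (Fin p) → ℝ) : Prop :=
  ∀ A B C : Finset (Fin p), A.Nonempty → B.Nonempty → C.Nonempty →
    Disjoint A B → Disjoint A C → Disjoint B C →
    c A + c B + c C + c (A ∪ B ∪ C) ≤ c (A ∪ B) + c (A ∪ C) + c (B ∪ C)

/-- The marks of `L` are light: the divisor has degree `0` on the F-curves with three parts in `L`,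
which are the F-curves contracted in the Hassett space with light marks `L`. -/
def LightOn (L : Finset (Fin p)) (c : Finset (Fin p) → ℝ) : Prop :=
  ∀ A B C : Finset (Fin p), A.Nonempty → B.Nonempty → C.Nonempty →
    Disjoint A B → Disjoint A C → Disjoint B C → A ⊆ L → B ⊆ L → C ⊆ L →
    c A + c B + c C + c (A ∪ B ∪ C) = c (A ∪ B) + c (A ∪ C) + c (B ∪ C)

/-- The `T i` are the sets of marks on the branches, besides the branch of `∞`, at a vertex of the
tree of a stratum. -/
def IsVertex (T : Fin q → Finset (Fin p)) : Prop :=
  (∀ i, (T i).Nonempty) ∧ ∀ i j, i ≠ j → Disjoint (T i) (T j)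

/-- The marks on the branches in `S`. -/
def br (T : Fin q → Finset (Fin p)) (S : Finset (Fin q)) : Finset (Fin p) := S.biUnion T

/-- `m S` are the intersection numbers `C · δ_S` of a curve `C` in `M̄_{0,q+1}` that is not contained
in the boundary, and `d = C · ψ_∞`: all `m S ≥ 0`, and for all marks `i ≠ j` different from `∞`
`ψ_∞ = ∑ δ_S`, the sum over the `S` containing `i` and `j`. -/
def IsCurve (m : Finset (Fin q) → ℕ) (d : ℕ) : Prop :=
  (∀ S : Finset (Fin q), S.card ≤ 1 → m S = 0) ∧ m univ = 0 ∧
    ∀ i j : Fin q, i ≠ j →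
      ∑ S ∈ univ.filter (fun S : Finset (Fin q) => i ∈ S ∧ j ∈ S), m S = d

/-- The degree `C · ψ_i = ∑ C · δ_S - C · ψ_∞`, the sum over the `S` containing `i`. -/
def psi (m : Finset (Fin q) → ℕ) (d : ℕ) (i : Fin q) : ℝ :=
  (∑ S ∈ univ.filter (fun S : Finset (Fin q) => i ∈ S), m S : ℕ) - (d : ℝ)

/-- The contribution of the vertex to the degree of `∑ c S • δ_S` on the curve. -/
def degree (c : Finset (Fin p) → ℝ) (T : Fin q → Finset (Fin p)) (m : Finset (Fin q) → ℕ)
    (d : ℕ) : ℝ :=
  ∑ S : Finset (Fin q), (m S : ℝ) * c (br T S) - ∑ i, psi m d i * c (T i) - d * c (br T univ)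

/-- The heavy branches: those with a heavy mark. -/
def heavy (L : Finset (Fin p)) (T : Fin q → Finset (Fin p)) : Finset (Fin q) :=
  univ.filter fun i => ¬ T i ⊆ L

/-! ### Proofs -/

lemma br_union (T : Fin q → Finset (Fin p)) (A B : Finset (Fin q)) :
    br T (A ∪ B) = br T A ∪ br T B := by
  unfold br; exact union_biUnion

lemma br_nonempty {T : Fin q → Finset (Fin p)} (hT : IsVertex T) {A : Finset (Fin q)}
    (hA : A.Nonempty) : (br T A).Nonempty := by
  obtain ⟨i, hi⟩ := hA
  obtain ⟨x, hx⟩ := hT.1 i
  exact ⟨x, mem_biUnion.2 ⟨i, hi, hx⟩⟩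

lemma br_disjoint {T : Fin q → Finset (Fin p)} (hT : IsVertex T) {A B : Finset (Fin q)}
    (h : Disjoint A B) : Disjoint (br T A) (br T B) := by
  rw [br, br, disjoint_biUnion_left]
  intro i hi
  rw [disjoint_biUnion_right]
  intro j hj
  exact hT.2 i j (by rintro rfl; exact disjoint_left.1 h hi hj)

/-- The numerical degree in terms of a function which vanishes on the light part. -/
theorem general {c : Finset (Fin p) → ℝ} {L : Finset (Fin p)} (hc : IsDivisor c) (hF : FNef c)
    (hL : LightOn L c) {T : Fin q → Finset (Fin p)} (hT : IsVertex T) {m : Finset (Fin q) → ℕ}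
    {d : ℕ} (hm : IsCurve m d)
    (hfix : ∀ S, m S ≠ 0 → (S ∩ heavy L T).card ≤ 1 ∨ heavy L T ⊆ S) : 0 ≤ degree c T m d := by
  classical
  set E : Finset (Fin q) → ℝ := fun S => - c (br T S) with hE
  have hE0 : E ∅ = 0 := by
    rw [hE]
    simp only [br, biUnion_empty]
    rw [hc.1 ∅ (by simp), neg_zero]
  have hEF : FIneq E := by
    intro A B C hA hB hC hAB hAC hBC
    have h := hF _ _ _ (br_nonempty hT hA) (br_nonempty hT hB) (br_nonempty hT hC)
      (br_disjoint hT hAB) (br_disjoint hT hAC) (br_disjoint hT hBC)
    simp only [hE, br_union]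
    linarith
  have hEL : FEqOn (heavy L T)ᶜ E := by
    intro A B C hA hB hC hAB hAC hBC h1 h2 h3
    have hsub : ∀ A : Finset (Fin q), A ⊆ (heavy L T)ᶜ → br T A ⊆ L := by
      intro A hA x hx
      obtain ⟨i, hi, hxi⟩ := mem_biUnion.1 hx
      have h4 := hA hi
      rw [heavy, mem_compl, mem_filter] at h4
      push Not at h4
      exact h4 (mem_univ _) hxi
    have h := hL _ _ _ (br_nonempty hT hA) (br_nonempty hT hB) (br_nonempty hT hC)
      (br_disjoint hT hAB) (br_disjoint hT hAC) (br_disjoint hT hBC) (hsub A h1) (hsub B h2)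
      (hsub C h3)
    simp only [hE, br_union]
    linarith
  have hH0 : nz E ∅ = 0 := nz_empty hE0
  have hHL : ∀ S, S ⊆ (heavy L T)ᶜ → nz E S = 0 := fun S hS =>
    zero_on hH0 (nz_single E) (fun i j h => nz_pair E h) (nz_FEqOn hEL) _ S rfl hS
  have h1 := numeric (nz_FIneq hEF) (nz_single E) hHL hm.2.2 hfix
  -- back to `c`
  have h2 : ∑ S : Finset (Fin q), (m S : ℝ) * Qd (gu E) (ge E) S =
      ∑ i, ((∑ S ∈ univ.filter (fun S : Finset (Fin q) => i ∈ S), m S : ℕ) : ℝ) * E {i} +
        (d : ℝ) * ((1 / 2) * ∑ i, ∑ j, ge E i j) := by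
    unfold Qd
    simp only [mul_add, sum_add_distrib]
    congr 1
    · have e1 : ∀ S : Finset (Fin q), (m S : ℝ) * ∑ i ∈ S, gu E i =
          ∑ i, if i ∈ S then (m S : ℝ) * E {i} else 0 := by
        intro S
        rw [← sum_filter, mul_sum, filter_mem_eq_inter, univ_inter]
        rfl
      rw [sum_congr rfl fun S _ => e1 S, sum_comm]
      refine sum_congr rfl fun i _ => ?_
      rw [← sum_filter, ← sum_mul]
      push_cast
      rfl
    · have e1 : ∀ S : Finset (Fin q), (m S : ℝ) * ((1 / 2) * ∑ i ∈ S, ∑ j ∈ S, ge E i j) =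
          ∑ i, ∑ j, if i ∈ S ∧ j ∈ S then (m S : ℝ) * ((1 / 2) * ge E i j) else 0 := by
        intro S
        simp only [mul_sum]
        rw [← sum_subset (subset_univ S)]
        · refine sum_congr rfl fun i hi => ?_
          rw [← sum_subset (subset_univ S)]
          · refine sum_congr rfl fun j hj => ?_
            rw [if_pos ⟨hi, hj⟩]
          · intro j _ hj
            rw [if_neg fun h => hj h.2]
        · intro i _ hi
          refine sum_eq_zero fun j _ => ?_
          rw [if_neg fun h => hi h.1]
      rw [sum_congr rfl fun S _ => e1 S, sum_comm]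
      simp only [mul_sum]
      refine sum_congr rfl fun i _ => ?_
      rw [sum_comm]
      refine sum_congr rfl fun j _ => ?_
      by_cases hij : i = j
      · subst hij
        have e2 : ge E i i = 0 := by simp [ge]
        rw [e2]
        simp
      · rw [← sum_filter, ← sum_mul, ← Nat.cast_sum, hm.2.2 i j hij]
  have h3 : Qd (gu E) (ge E) univ = ∑ i, E {i} + (1 / 2) * ∑ i, ∑ j, ge E i j := rfl
  unfold nz at h1
  simp only [mul_sub, sum_sub_distrib] at h1
  rw [h2, h3] at h1
  have h4 : degree c T m d = d * E univ - ∑ S : Finset (Fin q), (m S : ℝ) * E S +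
      ∑ i, psi m d i * E {i} := by
    have e1 : ∀ i, c (T i) = - E {i} := by
      intro i
      simp [hE, br]
    unfold degree
    simp only [e1, mul_neg, sum_neg_distrib]
    simp only [hE, mul_neg, sum_neg_distrib]
    ring
  have h5 : ∑ i, psi m d i * E {i} =
      ∑ i, ((∑ S ∈ univ.filter (fun S : Finset (Fin q) => i ∈ S), m S : ℕ) : ℝ) * E {i} -
        d * ∑ i, E {i} := by
    rw [mul_sum, ← sum_sub_distrib]
    refine sum_congr rfl fun i _ => ?_
    unfold psi
    ring
  rw [h4, h5]
  linarith

theorem heavy_card {L : Finset (Fin p)} {T : Fin q → Finset (Fin p)} (hT : IsVertex T) :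
    (heavy L T).card ≤ (Lᶜ).card := by
  classical
  have h : ∀ i ∈ heavy L T, ∃ x, x ∈ T i ∧ x ∉ L := by
    intro i hi
    rw [heavy, mem_filter] at hi
    exact not_subset.1 hi.2
  rcases (heavy L T).eq_empty_or_nonempty with h0 | ⟨i0, h0⟩
  · rw [h0]; exact Nat.zero_le _
  obtain ⟨x0, -, -⟩ := h i0 h0
  have : Nonempty (Fin p) := ⟨x0⟩
  choose! f hf using h
  refine card_le_card_of_injOn f (fun i hi => ?_) ?_
  · rw [coe_compl]
    exact fun hx => (hf i hi).2 (mem_coe.1 hx)
  · intro i hi j hj hij
    by_contra hne
    have h1 := (hf i (mem_coe.1 hi)).1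
    have h2 := (hf j (mem_coe.1 hj)).1
    rw [hij] at h1
    exact disjoint_left.1 (hT.2 i j hne) h1 h2

/-- Let `∑ c S • δ_S` be an F-nef divisor on `M̄_{0,p+1}` which has degree `0` on all F-curves with
three parts in `L`, that is, which is pulled back from the Hassett space with light marks `L` (the
heavy marks are `∞` and the marks outside `L`).

(1) If there are at most three heavy marks, the divisor is nef: it has nonnegative degree on every
curve, and even every vertex of the tree of the generic stratum of a curve contributes a nonnegative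
number to the degree.

(2) For any number of heavy marks this is true for the curves in the fibres of the map which forgets
the light marks: for the vertices such that no proper part with at least two elements of the set of
heavy branches collides. -/
theorem result (p : ℕ) (c : Finset (Fin p) → ℝ) (L : Finset (Fin p)) (hc : IsDivisor c)
    (hF : FNef c) (hL : LightOn L c) :
    ((Lᶜ).card ≤ 2 → ∀ (q : ℕ) (T : Fin q → Finset (Fin p)) (m : Finset (Fin q) → ℕ) (d : ℕ),
      IsVertex T → IsCurve m d → 0 ≤ degree c T m d) ∧
    ∀ (q : ℕ) (T : Fin q → Finset (Fin p)) (m : Finset (Fin q) → ℕ) (d : ℕ),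
      IsVertex T → IsCurve m d →
      (∀ S, m S ≠ 0 → (S ∩ heavy L T).card ≤ 1 ∨ heavy L T ⊆ S) → 0 ≤ degree c T m d := by
  refine ⟨fun h2 q T m d hT hm => general hc hF hL hT hm fun S _ => ?_,
    fun q T m d hT hm hfix => general hc hF hL hT hm hfix⟩
  have h3 := (heavy_card (L := L) hT).trans h2
  by_cases h4 : heavy L T ⊆ S
  · exact Or.inr h4
  · left
    have h5 : S ∩ heavy L T ⊂ heavy L T := by
      refine ⟨inter_subset_right, fun h => h4 (h.trans inter_subset_left)⟩
    have := card_lt_card h5
    omega

end Pool.Agent.Results.MP_23e236_ag.ThreeHeavyMarks
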